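import Pool.Agent.Helper11.PB.Goals
import Pool.Agent.Helper76.PB.NrmInd
import Pool.Agent.Helper76.PP.Goals3
import Pool.Agent.Helper17.PP2.Defs
import Pool.Agent.Helper51.REC.Goals3

/-!
# Project R (MP_fc6b1e_nt, stage 3): all the conditions are kept, by the two-sided reciprocity law

`NTV2` is the condition on `χ₀`, `V_HYP0T` the interface with the analytic part, `MOMR` the moment theorem in
class form with the constant `1/(Q - 1)`.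
-/

set_option autoImplicit false

namespace Pool.Agent.Helper11.R

open NumberField Polynomial Module IsDedekindDomain
open Pool.Agent.Helper51.RP Pool.Agent.Helper42.RD Pool.Agent.Helper42.PP Pool.Agent.Helper42.PP1
open Pool.Agent.Helper51.SigLeo Pool.Agent.Helper11.LE Pool.Agent.Helper11.PP
open Pool.Agent.Helper17.PP (Sys)
open Pool.Agent.Helper17.PP0 (Hyp₀)
open Pool.Agent.Helper42.PB Pool.Agent.Helper76.PP

/-- The condition for the nontriviality of the two-sided characters: a function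
`g ↦ tr(η ξ^(-i(g))) + n(g)⁻¹ tr(η' ξ^(i(g))) + γ n(g)⁻¹ + γ'` on `Gal(M₁/K)`, `(η, η') ≠ (0, 0)`, is not zero.
(`χ₀` is not `1`, not conjugate to `ω` and not conjugate to `ω χ₀⁻¹`.) -/
def NTV2 (p : ℕ) [Fact p.Prime] {K M K₁ : Type} (M₁ : Type) [Field K] [Field M] [Field K₁]
    [Field M₁] [Algebra K M] [Algebra K K₁] [Algebra K M₁] [Algebra M M₁] [Algebra K₁ M₁] (ε : K₁)
    (δ : M ≃ₐ[K] M) (P : (ZMod p)[X]) : Prop :=
  ∀ tr : AdjoinRoot P →ₗ[ZMod p] ZMod p, tr ≠ 0 → ∀ (η η' : AdjoinRoot P) (γ γ' : ZMod p),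
    ¬ (η = 0 ∧ η' = 0) →
  ∃ (g : M₁ ≃ₐ[K] M₁) (i : ℕ) (σ : K₁ ≃ₐ[K] K₁), i < finrank K M ∧
    (∀ y : M, g (algebraMap M M₁ y) = algebraMap M M₁ ((δ ^ i) y)) ∧
    (∀ y : K₁, g (algebraMap K₁ M₁ y) = algebraMap K₁ M₁ (σ y)) ∧
    tr (η * AdjoinRoot.root P ^ (finrank K M - i)) +
      (nsig p ε σ)⁻¹ * tr (η' * AdjoinRoot.root P ^ i) + γ * (nsig p ε σ)⁻¹ + γ' ≠ 0

open Classical in
/-- **V_HYP0T**: `V_HYP0` for a given character of `κ`. -/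
def V_HYP0T : Prop :=
  ∀ (p : ℕ) [Fact p.Prime] (K M K₁ M₁ J M₂ : Type) [Field K] [NumberField K] [Field M]
    [NumberField M] [Field K₁] [NumberField K₁] [IsTotallyComplex K₁] [Field M₁] [NumberField M₁]
    [IsTotallyComplex M₁] [Field J] [NumberField J] [Field M₂] [NumberField M₂] [Algebra K M]
    [Algebra K K₁] [Algebra K M₁] [Algebra M M₁] [Algebra K₁ M₁] [Algebra K J] [Algebra K M₂]
    [Algebra M M₂] [Algebra K₁ M₂] [Algebra M₁ M₂] [Algebra J M₂] (ε : K₁) (δ : M ≃ₐ[K] M)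
    (P : (ZMod p)[X]) [Fact (Irreducible P)] [Fintype (AdjoinRoot P)] (a₀ : M₂ˣ),
    SitB p K M K₁ M₁ J M₂ ε δ P a₀ → NTV p M₁ ε δ P →
  ∀ (B : Base p K M K₁ M₁ ε δ P) (D : BaseB B a₀),
  ∃ (g : ℝ → ℝ) (K₀ : ℝ), Slow g K₀ ∧
  ∀ (n : ℕ) (E : TauF n B) (aτ : K₁ˣ), OmType p K ε (aτ : K₁) →
    (∀ c : Fin n → AdjoinRoot P, (∀ i, ∑ j, c j * E.h j (B.u i) = 0) →
      (∀ x : M₂ˣ, ∑ j, c j * E.h j (nrm M M₂ x) = 0) → c = 0) →
  ∀ (tr : AdjoinRoot P →ₗ[ZMod p] ZMod p) (ψ₁ : AddChar (ZMod p) ℂ), tr ≠ 0 → ψ₁ ≠ 1 →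
  ∃ (K' : ℕ), Hyp₀ (sysB B E (Spl M₂ B.S) D.s0 aτ) (psK tr ψ₁) g K' ∧
  ∃ c X₁ : ℝ, 0 < c ∧ ∀ X : ℝ, X₁ ≤ X → ∃ Q : Finset B.LP, c * (X * g X) ≤
    ∑ b ∈ Q.powerset with (sysB B E (Spl M₂ B.S) D.s0 aτ).Fam b,
      Real.exp (-((sysB B E (Spl M₂ B.S) D.s0 aτ).nm b / X))

/-- **MOMR** (the moment theorem, class form, with all the conditions; compare `PB.MOMB`). The constant is
`1/(Q - 1)`; `M₂ = K₁` is allowed. -/
def MOMR : Prop :=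
  ∀ (p : ℕ) [Fact p.Prime] (L : IwasawaLog p ℂ_[p]) (K M K₁ M₁ J M₂ : Type) [Field K]
    [NumberField K] [IsTotallyComplex K] [Field M] [NumberField M] [Field K₁] [NumberField K₁]
    [Field M₁] [NumberField M₁] [Field J] [NumberField J] [Field M₂] [NumberField M₂] [Algebra K M]
    [Algebra K K₁] [Algebra K M₁] [Algebra M M₁] [Algebra K₁ M₁] [Algebra K J] [Algebra K M₂]
    [Algebra M M₂] [Algebra K₁ M₂] [Algebra M₁ M₂] [Algebra J M₂] (ε : K₁) (δ : M ≃ₐ[K] M)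
    (P : (ZMod p)[X]) (a₀ : M₂ˣ), SitBs p K M K₁ M₁ J M₂ ε δ P a₀ → NTV2 p M₁ ε δ P →
  ∀ (m : ℕ) (ζ : ℂ_[p]) (Φ : ℤ_[p][X]), PhiData p m ζ Φ P → finrank K M = m → TorOK P δ →
  ∀ T : Set (K →+* ℂ_[p]), PlaceClosed T → finrank ℚ K = 2 * T.ncard →
  Pool.Agent.Helper11.PB.MomC p K ε (Pool.Agent.Helper11.PB.BdB L T P δ a₀)
    (1 / ((p : ℝ) ^ P.natDegree - 1))

end Pool.Agent.Helper11.R
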