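import Pool.Agent.Helper50.PP.BL2
import Pool.Agent.Helper51.PP.Asm

/-!
# Project R (MP_fc6b1e_nt, stage 3): the bilinear bound for the symbols in both directions
-/

set_option autoImplicit false

namespace Pool.Agent.Helper11.R

open NumberField IsDedekindDomain Finset
open Pool.Agent.Helper51.PP
open Pool.Agent.Helper17.PP (Sys)

open Classical in
/-- The field `bl₃` of `Hyp₂` from a system of two-sided characters: variable `q₁`, modulus `q`. -/
def A2_BL3 : Prop :=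
  ∀ (p : ℕ) (B B₀ k U Λ C : Type) [Field k] [AddCommGroup U] [Module k U]
    [AddCommGroup Λ] [Module k Λ] [AddCommGroup C] [Algebra (ZMod p) k] (S : Sys p B B₀ k U Λ C)
    (ψ : AddChar k ℂ) (F : Type) [Field F] [NumberField F], UniB F → ∀ (K₀ ℓ : ℕ),
    (∀ j : ℕ, 1 ≤ j → ∑ q ∈ S.blk j, (1 : ℝ) / S.N q ≤ K₀ / j) →
    (∀ b₀ : B₀, {q | S.bs q = b₀}.Finite ∧ {q | S.bs q = b₀}.ncard ≤ ℓ) →
    ∀ (E : Type) [Fintype E] (lab : B → E) (𝔪₀ : Ideal (𝓞 F)) (nn : B → Ideal (𝓞 F)) (d : ℕ)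
      (W : B → HeightOneSpectrum (𝓞 F)) (Xd : B → k → k → k → k → E → Ideal (𝓞 F) → ℂ),
    (∀ (t s c y : k) (e : E), t ≠ 0 → s ≠ 0 → (c ≠ 0 ∨ y ≠ 0) →
      Chs S F 𝔪₀ nn d {q₁ | S.spl q₁ ∧ lab q₁ = e} {q | S.spl q} W
        (fun q ↦ Xd q t s c y e)) →
    (∀ (t s c y : k) (q q₁ : B), S.spl q → S.spl q₁ → S.bs q ≠ S.bs q₁ →
      Xd q t s c y (lab q₁) (W q₁).asIdeal =
        ψ (s * (c * S.a q q₁ + t * algebraMap (ZMod p) k (S.kap q q₁)) +
          y * (t * S.a q₁ q + c * algebraMap (ZMod p) k (S.kap q₁ q)))) →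
    ∃ K : ℕ, 1 ≤ K ∧
    ∀ (i j : ℕ) (t s c y : k) (α β : B → ℂ) (Y : ℝ), 1 ≤ i → 1 ≤ j → i ≠ j → t ≠ 0 →
    s ≠ 0 → (c ≠ 0 ∨ y ≠ 0) → 0 < Y → (∀ q, ‖α q‖ ≤ 1) → (∀ q, ‖β q‖ ≤ 1) →
    ‖∑ q₁ ∈ S.blk i with S.spl q₁, ∑ q ∈ S.blk j with S.spl q, α q₁ * β q *
      ψ (s * (c * S.a q q₁ + t * algebraMap (ZMod p) k (S.kap q q₁)) +
        y * (t * S.a q₁ q + c * algebraMap (ZMod p) k (S.kap q₁ q))) *
      (Real.exp (-((S.N q : ℝ) * S.N q₁ / Y)) : ℂ)‖ ≤
      K * 2 ^ (i + j) * (i + j) ^ K * (2 : ℝ) ^ (-(min i j : ℝ) / K) *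
        Real.exp (-((2 : ℝ) ^ (i + j) / (2 * Y)))

theorem a2_bl3 : A2_BL3 := by
  classical
  intro p B B₀ k U Λ C _ _ _ _ _ _ _ S ψ F _ _ hU K₀ ℓ h1 h2 E _ lab 𝔪₀ nn d W Xd hChs hval
  obtain ⟨K, hK1, hK⟩ := Pool.Agent.Helper51.PP.gen p B B₀ k U Λ C S F hU K₀ ℓ 1 le_rfl h1 h2 𝔪₀ d
  refine ⟨Fintype.card E * K + K, by omega, ?_⟩
  intro i j t s c y α β Y hi hj hij ht hs hcy hY hα hβ
  -- the bases are different
  have hbs : ∀ q ∈ S.blk j, ∀ q₁ ∈ S.blk i, S.bs q ≠ S.bs q₁ := by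
    intro q hq q₁ hq₁ h
    unfold Sys.blk at hq hq₁
    rw [Finset.mem_filter] at hq hq₁
    apply hij
    rw [← hq.2, ← hq₁.2]
    unfold Sys.bl
    rw [S.bsN q q₁ h]
  set β' : Finset B → ℂ := fun D => if hD : ∃ q, q ∈ S.blk j ∧ S.spl q ∧ D = {q} then
    β hD.choose else 0 with hβ'
  have hβ1 : ∀ q, q ∈ S.blk j → S.spl q → β' {q} = β q := by
    intro q hq1 hq2
    have hD : ∃ q', q' ∈ S.blk j ∧ S.spl q' ∧ ({q} : Finset B) = {q'} := ⟨q, hq1, hq2, rfl⟩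
    simp only [hβ']
    rw [dif_pos hD]
    have h3 := hD.choose_spec.2.2
    rw [Finset.singleton_inj] at h3
    rw [← h3]
  have hβ2 : ∀ D, β' D ≠ 0 → ∃ q, q ∈ S.blk j ∧ S.spl q ∧ D = {q} := by
    intro D hD
    by_contra hcon
    apply hD
    simp only [hβ']
    rw [dif_neg hcon]
  have hβ3 : ∀ D, ‖β' D‖ ≤ (1 : ℝ) ^ D.card := by
    intro D
    rw [one_pow]
    by_cases hD : ∃ q, q ∈ S.blk j ∧ S.spl q ∧ D = {q}
    · simp only [hβ']
      rw [dif_pos hD]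
      exact hβ _
    · simp only [hβ']
      rw [dif_neg hD, norm_zero]
      norm_num
  -- the phase
  set ph : B → B → ℂ := fun q q₁ =>
    ψ (s * (c * S.a q q₁ + t * algebraMap (ZMod p) k (S.kap q q₁)) +
      y * (t * S.a q₁ q + c * algebraMap (ZMod p) k (S.kap q₁ q))) with hph
  -- the bound for one label
  have hone : ∀ e : E, ‖∑ q₁ ∈ S.blk i with (S.spl q₁ ∧ lab q₁ = e),
      ∑ q ∈ S.blk j with S.spl q,
      α q₁ * β q * ph q q₁ * (Real.exp (-((S.N q : ℝ) * S.N q₁ / Y)) : ℂ)‖ ≤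
      K * 2 ^ (j + i) * ((j : ℝ) + 1) ^ K * (2 : ℝ) ^ (-(min (j : ℝ) i) / K) *
        Real.exp (-((2 : ℝ) ^ (j + i) / (2 * Y))) := by
    intro e
    have hCe := hChs t s c y e ht hs hcy
    generalize hUp : {q₁ | S.spl q₁ ∧ lab q₁ = e} = Up at hCe
    have hUp' : ∀ q₁, q₁ ∈ Up ↔ S.spl q₁ ∧ lab q₁ = e := by
      intro q₁
      rw [← hUp]
      exact Iff.rfl
    have h3 := hK nn Up {q | S.spl q} W (fun q => Xd q t s c y e)
      hCe j i α β' Y hi hY hα hβ3 (by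
        intro D hD
        obtain ⟨q, hq1, hq2, rfl⟩ := hβ2 D hD
        refine ⟨?_, ?_⟩
        · rw [Finset.coe_singleton]
          exact Set.injOn_singleton _ _
        · intro q' hq'
          rw [Finset.mem_singleton] at hq'
          rw [hq']
          exact hq2)
    refine le_trans (le_of_eq ?_) h3
    congr 1
    refine Finset.sum_congr ?_ ?_
    · ext q₁
      constructor
      · intro hP
        have hP' := Finset.mem_filter.1 hP
        exact Finset.mem_filter.2 ⟨hP'.1, (hUp' q₁).2 hP'.2⟩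
      · intro hP
        have hP' := Finset.mem_filter.1 hP
        exact Finset.mem_filter.2 ⟨hP'.1, (hUp' q₁).1 hP'.2⟩
    · intro q₁ hP
      obtain ⟨hP1, hP23⟩ := Finset.mem_filter.1 hP
      obtain ⟨hP2, hP3⟩ := (hUp' q₁).1 hP23
      have hinj : Function.Injective (fun q : B => ({q} : Finset B)) :=
        fun a b hab => Finset.singleton_injective hab
      have hsub : (((S.blk j).filter fun q => S.spl q).image fun q : B => ({q} : Finset B)) ⊆
          S.mods j := by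
        intro D hD
        rw [Finset.mem_image] at hD
        obtain ⟨q, hq, rfl⟩ := hD
        rw [Finset.mem_filter] at hq
        exact Pool.Agent.Helper50.PP.mem_blk S hq.1
      rw [← Finset.sum_subset hsub]
      · rw [Finset.sum_image (fun a _ b _ hab => hinj hab)]
        refine Finset.sum_congr rfl ?_
        intro q hq
        rw [Finset.mem_filter] at hq
        rw [hβ1 q hq.1 hq.2, Finset.prod_singleton]
        have h4 : Xd q t s c y e (W q₁).asIdeal = ph q q₁ := by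
          rw [← hP3]
          exact hval t s c y q q₁ hq.2 hP2 (hbs q hq.1 q₁ hP1)
        have h5 : S.nm {q} = S.N q := Finset.prod_singleton _ _
        rw [h4, h5, mul_comm (S.N q : ℝ)]
      · intro D _ hD
        have h6 : β' D = 0 := by
          by_contra hne
          obtain ⟨q, hq1, hq2, rfl⟩ := hβ2 D hne
          apply hD
          rw [Finset.mem_image]
          exact ⟨q, Finset.mem_filter.2 ⟨hq1, hq2⟩, rfl⟩
        rw [h6]
        ring
  -- the sum over the labels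
  have hsplit : (∑ q₁ ∈ S.blk i with S.spl q₁, ∑ q ∈ S.blk j with S.spl q,
      α q₁ * β q * ph q q₁ * (Real.exp (-((S.N q : ℝ) * S.N q₁ / Y)) : ℂ)) =
      ∑ e : E, ∑ q₁ ∈ S.blk i with (S.spl q₁ ∧ lab q₁ = e), ∑ q ∈ S.blk j with S.spl q,
      α q₁ * β q * ph q q₁ * (Real.exp (-((S.N q : ℝ) * S.N q₁ / Y)) : ℂ) := by
    rw [← Finset.sum_fiberwise ((S.blk i).filter fun q₁ => S.spl q₁) lab]
    refine Finset.sum_congr rfl fun e _ => ?_
    rw [Finset.filter_filter]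
  rw [hsplit]
  refine (norm_sum_le _ _).trans ((Finset.sum_le_sum fun e _ => hone e).trans ?_)
  rw [Finset.sum_const, Finset.card_univ, nsmul_eq_mul]
  set n := Fintype.card E with hn
  have hexp := Real.exp_pos (-((2 : ℝ) ^ (i + j) / (2 * Y)))
  have hK0 : (0 : ℝ) < K := by exact_mod_cast hK1
  have e1 : (2 : ℝ) ^ (-(min (j : ℝ) i) / K) ≤ (2 : ℝ) ^ (-(min (i : ℝ) j) / ((n * K + K : ℕ) : ℝ)) := by
    rw [min_comm]
    apply Real.rpow_le_rpow_of_exponent_le (by norm_num)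
    rw [neg_div, neg_div, neg_le_neg_iff]
    apply div_le_div_of_nonneg_left (by positivity) hK0
    exact_mod_cast (by omega : K ≤ n * K + K)
  have e2 : ((j : ℝ) + 1) ^ K ≤ ((i : ℝ) + j) ^ (n * K + K) := by
    have hi' : (1 : ℝ) ≤ i := by exact_mod_cast hi
    have hj' : (1 : ℝ) ≤ j := by exact_mod_cast hj
    calc ((j : ℝ) + 1) ^ K ≤ ((i : ℝ) + j) ^ K := pow_le_pow_left₀ (by positivity) (by linarith) _
      _ ≤ ((i : ℝ) + j) ^ (n * K + K) := pow_le_pow_right₀ (by linarith) (by omega)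
  have e3 : (n : ℝ) * K ≤ ((n * K + K : ℕ) : ℝ) := by
    push_cast
    linarith
  rw [add_comm j i]
  have g1 : (0 : ℝ) ≤ (n : ℝ) * K := by positivity
  calc (n : ℝ) * (K * 2 ^ (i + j) * ((j : ℝ) + 1) ^ K * (2 : ℝ) ^ (-(min (j : ℝ) i) / K) *
        Real.exp (-((2 : ℝ) ^ (i + j) / (2 * Y)))) =
      ((n : ℝ) * K) * 2 ^ (i + j) * ((j : ℝ) + 1) ^ K * (2 : ℝ) ^ (-(min (j : ℝ) i) / K) *
        Real.exp (-((2 : ℝ) ^ (i + j) / (2 * Y))) := by ring
    _ ≤ ((n * K + K : ℕ) : ℝ) * 2 ^ (i + j) * ((i : ℝ) + j) ^ (n * K + K) *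
        (2 : ℝ) ^ (-(min (i : ℝ) j) / ((n * K + K : ℕ) : ℝ)) *
        Real.exp (-((2 : ℝ) ^ (i + j) / (2 * Y))) := by
          gcongr

end Pool.Agent.Helper11.R
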