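import Pool.Agent.Helper11.R.Chr
import Pool.Agent.Helper11.R.BL3
import Pool.Agent.Helper42.PB.BLU

/-!
# Project R (MP_fc6b1e_nt, stage 3): the two-sided characters of the systems `sysB`
-/

set_option autoImplicit false
set_option linter.unusedSectionVars false

namespace Pool.Agent.Helper11.R

open NumberField Polynomial Module IsDedekindDomain
open Pool.Agent.Helper51.RP Pool.Agent.Helper42.RD Pool.Agent.Helper42.PP Pool.Agent.Helper42.PP1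
open Pool.Agent.Helper76.PP Pool.Agent.Helper51.REC
open Pool.Agent.Helper51.PP (RC Chs)
open Pool.Agent.Helper17.PP (Sys)
open Pool.Agent.Helper42.PB (TauF sysB)
open Pool.Agent.Helper35.PP (val_p_eq_one sup_mul_top span_sup_top)

/-- `V_BLU` in both directions. -/
theorem blu2 (hTWO : R_TWO) (p : ℕ) [Fact p.Prime] (K M K₁ M₁ : Type) [Field K] [NumberField K]
    [Field M] [NumberField M] [Field K₁] [NumberField K₁] [Field M₁] [NumberField M₁]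
    [IsTotallyComplex M₁] [Algebra K M] [Algebra K K₁]
    [Algebra K M₁] [Algebra M M₁] [Algebra K₁ M₁] (ε : K₁)
    (δ : M ≃ₐ[K] M) (P : (ZMod p)[X]) [Fact (Irreducible P)] (hs : SitW p K M K₁ M₁ ε δ P)
    (hnt : NTV2 p M₁ ε δ P)
    (B : Base p K M K₁ M₁ ε δ P) (n : ℕ) (E : TauF n B) (V : Set (HeightOneSpectrum (𝓞 K)))
    (s0 : HeightOneSpectrum (𝓞 K) → ZMod p) (aτ : K₁ˣ) (hV : V ⊆ B.Vis)
    (tr : AdjoinRoot P →ₗ[ZMod p] ZMod p) (ψ₁ : AddChar (ZMod p) ℂ) (htr : tr ≠ 0) (hψ : ψ₁ ≠ 1) :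
  ∃ (lab : B.LP → (ZMod p)ˣ × (ZMod p)ˣ)
    (Xd : B.LP → AdjoinRoot P → AdjoinRoot P → AdjoinRoot P → AdjoinRoot P →
      (ZMod p)ˣ × (ZMod p)ˣ → Ideal (𝓞 M₁) → ℂ),
    (∀ (t s c y : AdjoinRoot P) (e : (ZMod p)ˣ × (ZMod p)ˣ), t ≠ 0 → s ≠ 0 →
      (c ≠ 0 ∨ y ≠ 0) →
      Chs (sysB B E V s0 aτ) M₁ (modu p M₁ B.S)
        (fun q ↦ q.1.1.asIdeal.map (algebraMap (𝓞 K) (𝓞 M₁))) (finrank K M₁)
        {q | (sysB B E V s0 aτ).spl q ∧ lab q = e} {q | (sysB B E V s0 aτ).spl q}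
        (fun q ↦ B.W q.1.1) (fun q ↦ Xd q t s c y e)) ∧
    ∀ (t s c y : AdjoinRoot P) (q q₁ : B.LP), (sysB B E V s0 aτ).spl q →
      (sysB B E V s0 aτ).spl q₁ → (sysB B E V s0 aτ).bs q ≠ (sysB B E V s0 aτ).bs q₁ →
      Xd q t s c y (lab q₁) (B.W q₁.1.1).asIdeal =
        psK tr ψ₁ (s * (c * (sysB B E V s0 aτ).a q q₁ +
            t * algebraMap (ZMod p) (AdjoinRoot P) ((sysB B E V s0 aτ).kap q q₁)) +
          y * (t * (sysB B E V s0 aτ).a q₁ q +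
            c * algebraMap (ZMod p) (AdjoinRoot P) ((sysB B E V s0 aτ).kap q₁ q))) := by
  classical
  have h2 := Pool.Agent.Helper14.PP.b_prc
  have h3 := Pool.Agent.Helper94.PP.b_idn
  have := hs.st1
  have := hs.st2
  have := hs.gM
  have := hs.gK
  have := hs.gMK
  have hψ0 := Pool.Agent.Helper12.PP.kap_psi p ψ₁ hψ
  obtain ⟨hm0, hidn, hidn2⟩ := h3 p K M₁ B.S B.abp
  obtain ⟨cth, hcth⟩ := exists_cth hs B
  -- the characters
  have hex : ∀ (q : B.LP) (t s c y : AdjoinRoot P) (e : (ZMod p)ˣ × (ZMod p)ˣ),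
      ∃ ψ : Ideal (𝓞 M₁) → ZMod p, q.1.1 ∈ B.Vis →
        Psi p (modu p M₁ B.S * q.1.1.asIdeal.map (algebraMap (𝓞 K) (𝓞 M₁))) ψ ∧
        (∀ v ∈ B.Vis, v ≠ q.1.1 → ψ (B.W v).asIdeal = tr (s * c * B.A q.1.1 v) +
          (-((e.1 : ZMod p) * (q.1.2 : ZMod p)⁻¹ * tr (s * t))) * B.pi q.1.1 v +
          (e.2 : ZMod p) * ((cth v)⁻¹ * (tr (t * y * B.A v q.1.1) +
            (-((q.1.2 : ZMod p) * (e.1 : ZMod p)⁻¹ * tr (y * c))) * B.pi v q.1.1))) ∧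
        (¬ (s * c = 0 ∧ t * y = 0) →
          ∃ α : 𝓞 M₁, α - 1 ∈ modu p M₁ B.S ∧
          Ideal.span {α} ⊔ q.1.1.asIdeal.map (algebraMap (𝓞 K) (𝓞 M₁)) = ⊤ ∧
          ψ (Ideal.span {α}) ≠ 0) := by
    intro q t s c y e
    by_cases hq : q.1.1 ∈ B.Vis
    · obtain ⟨ψ, h4, h5, h6⟩ := chr hTWO hs B cth hcth tr hq (s * c) (t * y)
        (-((e.1 : ZMod p) * (q.1.2 : ZMod p)⁻¹ * tr (s * t)))
        (-((q.1.2 : ZMod p) * (e.1 : ZMod p)⁻¹ * tr (y * c))) (e.2 : ZMod p)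
      exact ⟨ψ, fun _ => ⟨h4, h5, h6 htr hnt e.2.ne_zero⟩⟩
    · exact ⟨fun _ => 0, fun h => absurd h hq⟩
  choose Ψ hΨ using hex
  -- the second label
  have hγ : ∀ q : B.LP, ∃ u : (ZMod p)ˣ, q.1.1 ∈ B.Vis → (u : ZMod p) = cth q.1.1 := by
    intro q
    by_cases hq : q.1.1 ∈ B.Vis
    · exact ⟨Units.mk0 _ (hcth _ hq).1, fun _ => rfl⟩
    · exact ⟨1, fun h => absurd h hq⟩
  choose γ hγ using hγ
  refine ⟨fun q => (q.1.2, γ q), fun q t s c y e ↦ chI (modu p M₁ B.S *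
    q.1.1.asIdeal.map (algebraMap (𝓞 K) (𝓞 M₁))) ψ₁ (Ψ q t s c y e), ?_, ?_⟩
  · intro t s c y e ht hs' hcy
    refine
      { m0 := hm0
        inj := ?_
        nW := ?_
        nne := ?_
        cop₀ := ?_
        cop := ?_
        rc := ?_
        nt := ?_ }
    · rintro q ⟨hq, hqe⟩ q' ⟨hq', hqe'⟩ h
      have hq0 : q.1.1 ∈ B.Vis := hV hq
      have hq0' : q'.1.1 ∈ B.Vis := hV hq'
      have a1 : Above (B.W q.1.1) q.1.1 := (B.Wa _ hq0).1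
      have a2 : Above (B.W q'.1.1) q'.1.1 := (B.Wa _ hq0').1
      have h' : B.W q.1.1 = B.W q'.1.1 := h
      have hv : q.1.1 = q'.1.1 := by
        apply HeightOneSpectrum.ext
        have a3 : (B.W q.1.1).asIdeal.comap (algebraMap (𝓞 K) (𝓞 M₁)) = q.1.1.asIdeal := a1
        have a4 : (B.W q'.1.1).asIdeal.comap (algebraMap (𝓞 K) (𝓞 M₁)) = q'.1.1.asIdeal := a2
        rw [← a3, ← a4, h']
      have he : q.1.2 = q'.1.2 :=
        (congrArg Prod.fst hqe).trans (congrArg Prod.fst hqe').symm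
      exact Subtype.ext (Prod.ext hv he)
    · rintro q ⟨hq, -⟩
      have hq0 : q.1.1 ∈ B.Vis := hV hq
      obtain ⟨hVIS, -, -⟩ := hs.vis q.1.1 (val_p_eq_one p B.abp hq0.1)
      obtain ⟨hWv, -, -, hWf⟩ := B.Wa _ hq0
      exact (hVIS _ hWv hWf).1
    · intro q hq
      obtain ⟨g1, g2, g3, -, -⟩ := hidn q.1.1
      exact ⟨g1, g2, le_of_eq g3⟩
    · intro q hq
      have hq0 : q.1.1 ∈ B.Vis := hV hq
      exact (hidn q.1.1).2.2.2.1 hq0.1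
    · intro q hq q' hq' hne
      exact (hidn q.1.1).2.2.2.2 q'.1.1 (fun h => hne h.symm)
    · intro q hq
      have hq0 : q.1.1 ∈ B.Vis := hV hq
      exact h2 p M₁ _ _ (hΨ q t s c y e hq0).1 ψ₁
    · intro q hq
      have hq0 : q.1.1 ∈ B.Vis := hV hq
      obtain ⟨α, hα1, hα2, hα3⟩ := (hΨ q t s c y e hq0).2.2 (by
        rintro ⟨h4, h5⟩
        rcases hcy with h6 | h6
        · exact (mul_ne_zero hs' h6) h4
        · exact (mul_ne_zero ht h6) h5)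
      refine ⟨α, hα1, hα2, ?_⟩
      have hα0 : Ideal.span {α} ≠ ⊥ := by
        intro h
        rw [h, bot_sup_eq] at hα2
        exact (hidn q.1.1).2.1 hα2
      have hcop : Ideal.span {α} ⊔ modu p M₁ B.S *
          q.1.1.asIdeal.map (algebraMap (𝓞 K) (𝓞 M₁)) = ⊤ :=
        sup_mul_top (span_sup_top hα1) hα2
      show chI _ ψ₁ _ (Ideal.span {α}) ≠ 1
      unfold chI
      rw [if_pos ⟨hα0, hcop⟩]
      intro h
      exact hα3 (hψ0 _ h)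
  · intro t s c y q q₁ hq hq₁ hne
    have hq0 : q.1.1 ∈ B.Vis := hV hq
    have hq0' : q₁.1.1 ∈ B.Vis := hV hq₁
    have hvv : q.1.1 ≠ q₁.1.1 := hne
    have hWv : Above (B.W q₁.1.1) q₁.1.1 := (B.Wa _ hq0').1
    have hcop : (B.W q₁.1.1).asIdeal ⊔ modu p M₁ B.S *
          q.1.1.asIdeal.map (algebraMap (𝓞 K) (𝓞 M₁)) = ⊤ := by
      have g1 := hidn2 q₁.1.1 {q.1.1} hq0'.1 (by
        rw [Finset.mem_singleton]
        exact fun h => hvv h.symm) _ hWv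
      unfold mD at g1
      rw [Finset.prod_singleton] at g1
      exact g1
    show chI _ ψ₁ _ (B.W q₁.1.1).asIdeal = _
    unfold chI
    rw [if_pos ⟨(B.W q₁.1.1).ne_bot, hcop⟩,
      (hΨ q t s c y (q₁.1.2, γ q₁) hq0).2.1 q₁.1.1 hq0' (fun h => hvv h.symm)]
    show ψ₁ _ = ψ₁ (tr (s * (c * B.A q.1.1 q₁.1.1 + t * algebraMap (ZMod p) (AdjoinRoot P)
      (-((q₁.1.2 : ZMod p) * (q.1.2 : ZMod p)⁻¹ * B.pi q.1.1 q₁.1.1))) +
      y * (t * B.A q₁.1.1 q.1.1 + c * algebraMap (ZMod p) (AdjoinRoot P)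
      (-((q.1.2 : ZMod p) * (q₁.1.2 : ZMod p)⁻¹ * B.pi q₁.1.1 q.1.1)))))
    congr 1
    have g2 : s * (c * B.A q.1.1 q₁.1.1 + t * algebraMap (ZMod p) (AdjoinRoot P)
      (-((q₁.1.2 : ZMod p) * (q.1.2 : ZMod p)⁻¹ * B.pi q.1.1 q₁.1.1))) +
      y * (t * B.A q₁.1.1 q.1.1 + c * algebraMap (ZMod p) (AdjoinRoot P)
      (-((q.1.2 : ZMod p) * (q₁.1.2 : ZMod p)⁻¹ * B.pi q₁.1.1 q.1.1))) =
        s * c * B.A q.1.1 q₁.1.1 +
          (-((q₁.1.2 : ZMod p) * (q.1.2 : ZMod p)⁻¹ * B.pi q.1.1 q₁.1.1)) • (s * t) +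
        (t * y * B.A q₁.1.1 q.1.1 +
          (-((q.1.2 : ZMod p) * (q₁.1.2 : ZMod p)⁻¹ * B.pi q₁.1.1 q.1.1)) • (y * c)) := by
      rw [Algebra.smul_def, Algebra.smul_def]
      ring
    rw [g2, map_add, map_add, map_add, map_smul, map_smul, smul_eq_mul, smul_eq_mul]
    have g3 : ((γ q₁ : (ZMod p)ˣ) : ZMod p) * (cth q₁.1.1)⁻¹ = 1 := by
      rw [hγ q₁ hq0']
      exact mul_inv_cancel₀ (hcth _ hq0').1
    show _ + _ * _ + ((γ q₁ : (ZMod p)ˣ) : ZMod p) * ((cth q₁.1.1)⁻¹ * _) = _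
    rw [← mul_assoc ((γ q₁ : (ZMod p)ˣ) : ZMod p), g3, one_mul]
    ring

end Pool.Agent.Helper11.R
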