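import Pool.Agent.Helper17.PB.HYP
import Pool.Agent.Helper11.R.BLU2

/-!
# Project R (MP_fc6b1e_nt, stage 3): the analytic hypotheses `Hyp₂` of the systems `sysB`
-/

set_option autoImplicit false

namespace Pool.Agent.Helper11.R

open NumberField Polynomial Module IsDedekindDomain
open Pool.Agent.Helper51.RP Pool.Agent.Helper42.RD
open Pool.Agent.Helper77.PPS Pool.Agent.Helper77.PPO
open Pool.Agent.Helper42.PP (Spl Base)
open Pool.Agent.Helper42.PP1 (SitW NTV)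
open Pool.Agent.Helper42.PB (TauF sysB SitB BaseB V_KUM v_blu v_blh)
open Pool.Agent.Helper17.PP (Sys)
open Pool.Agent.Helper17.PP0 (Hyp₀)
open Pool.Agent.Helper17.PP2 (Hyp₂)
open Pool.Agent.Helper17.PB
open Pool.Agent.Helper76.PP (psK)
open Pool.Agent.Helper76.PB (NrmInd V_SMN)
open Pool.Agent.Helper11.PP (Slow)
open Pool.Agent.Helper60.PPS (vis_sub)
open Pool.Agent.Helper51.REC (R_TWO)

/-- `NTV2` implies `NTV`. -/
theorem ntv_of_ntv2 {p : ℕ} [Fact p.Prime] {K M K₁ M₁ : Type} [Field K] [Field M] [Field K₁]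
    [Field M₁] [Algebra K M] [Algebra K K₁] [Algebra K M₁] [Algebra M M₁] [Algebra K₁ M₁] {ε : K₁}
    {δ : M ≃ₐ[K] M} {P : (ZMod p)[X]} (h : NTV2 p M₁ ε δ P) : NTV p M₁ ε δ P := by
  intro tr htr η γ hη
  obtain ⟨g, i, σ, hi, h1, h2, h3⟩ := h tr htr η 0 γ 0 (fun h' => hη h'.1)
  refine ⟨g, i, σ, hi, h1, h2, ?_⟩
  rwa [zero_mul, map_zero, mul_zero, add_zero, add_zero] at h3

open Classical in
/-- `Hyp₂` for the set of all primes. -/
theorem hyp₂_true {p : ℕ} {B B₀ k U Λ C : Type} [Field k] [Fintype k] [Algebra (ZMod p) k]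
    [AddCommGroup U] [Module k U] [AddCommGroup Λ] [Module k Λ] [AddCommGroup C]
    (S : Sys p B B₀ k U Λ C) (ψ : AddChar k ℂ) (G : B → Prop) (hG : ∀ q, G q) (g : ℝ → ℝ) (K : ℕ)
    (h0 : Hyp₀ S ψ g K)
    (h3 : ∀ (i j : ℕ) (t s c y : k) (α β : B → ℂ) (Y : ℝ), 1 ≤ i → 1 ≤ j → i ≠ j → t ≠ 0 →
      s ≠ 0 → (c ≠ 0 ∨ y ≠ 0) → 0 < Y → (∀ q, ‖α q‖ ≤ 1) → (∀ q, ‖β q‖ ≤ 1) →
      ‖∑ q₁ ∈ S.blk i with S.spl q₁, ∑ q ∈ S.blk j with S.spl q, α q₁ * β q *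
        ψ (s * (c * S.a q q₁ + t * algebraMap (ZMod p) k (S.kap q q₁)) +
          y * (t * S.a q₁ q + c * algebraMap (ZMod p) k (S.kap q₁ q))) *
        (Real.exp (-((S.N q : ℝ) * S.N q₁ / Y)) : ℂ)‖ ≤
        K * 2 ^ (i + j) * (i + j) ^ K * (2 : ℝ) ^ (-(min i j : ℝ) / K) *
          Real.exp (-((2 : ℝ) ^ (i + j) / (2 * Y)))) : Hyp₂ S ψ G g K := by
  refine { toHyp₀ := h0, tail := ?_, bl₃ := ?_ }
  · intro ε' hε'
    refine ⟨0, fun n => ?_⟩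
    refine le_trans (le_of_eq (Finset.sum_eq_zero fun q hq => ?_)) hε'.le
    exact absurd (hG q) (Finset.mem_filter.1 hq).2.1
  · intro i j t s c y α β Y hi hj hij ht hs' hcy hY hα hβ
    refine le_trans (le_of_eq ?_) (h3 i j t s c y α β Y hi hj hij ht hs' hcy hY hα hβ)
    congr 1
    refine Finset.sum_congr ?_ fun q₁ _ => Finset.sum_congr ?_ fun _ _ => rfl
    · ext q
      rw [Finset.mem_filter, Finset.mem_filter, and_iff_left (hG q)]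
    · ext q
      rw [Finset.mem_filter, Finset.mem_filter, and_iff_left (hG q)]

open Classical in
/-- The analytic hypotheses with two-sided symbols, and the lower bound for the family. -/
theorem hyp2 (hTWO : R_TWO) (w2 : V_SMN) (w3 : V_KUM) (p : ℕ) [Fact p.Prime]
    (K M K₁ M₁ J M₂ : Type) [Field K]
    [NumberField K] [Field M] [NumberField M] [Field K₁] [NumberField K₁] [IsTotallyComplex K₁]
    [Field M₁] [NumberField M₁] [IsTotallyComplex M₁] [Field J] [NumberField J] [Field M₂]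
    [NumberField M₂] [Algebra K M] [Algebra K K₁] [Algebra K M₁] [Algebra M M₁] [Algebra K₁ M₁]
    [Algebra K J] [Algebra K M₂] [Algebra M M₂] [Algebra K₁ M₂] [Algebra M₁ M₂] [Algebra J M₂]
    (ε : K₁) (δ : M ≃ₐ[K] M) (P : (ZMod p)[X]) [Fact (Irreducible P)] [Fintype (AdjoinRoot P)]
    (a₀ : M₂ˣ) (hB : SitB p K M K₁ M₁ J M₂ ε δ P a₀) (hnt2 : NTV2 p M₁ ε δ P)
    (B : Base p K M K₁ M₁ ε δ P) (D : BaseB B a₀) :
  ∃ (g : ℝ → ℝ) (K₀ : ℝ), Slow g K₀ ∧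
  ∀ (n : ℕ) (E : TauF n B) (aτ : K₁ˣ), OmType p K ε (aτ : K₁) → NrmInd E M₂ →
  ∃ (ψ : AddChar (AdjoinRoot P) ℂ) (K' : ℕ),
    Hyp₂ (sysB B E (Spl M₂ B.S) D.s0 aτ) ψ (fun _ ↦ True) g K' ∧
  ∃ c X₁ : ℝ, 0 < c ∧ ∀ X : ℝ, X₁ ≤ X → ∃ Q : Finset B.LP, c * (X * g X) ≤
    ∑ b ∈ Q.powerset with (sysB B E (Spl M₂ B.S) D.s0 aτ).Fam b,
      Real.exp (-((sysB B E (Spl M₂ B.S) D.s0 aτ).nm b / X)) := by
  have hnt : NTV p M₁ ε δ P := ntv_of_ntv2 hnt2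
  have hs := hB.sit
  have := hs.st1
  have := hs.st2
  have := hs.gM
  have := hs.gK
  have := hs.gMK
  have := hB.t1
  have := hB.t2
  have := hB.t3
  have := hB.gM₂
  have t6 : IsScalarTower K K₁ M₂ := IsScalarTower.of_algebraMap_eq fun x ↦ by
    rw [IsScalarTower.algebraMap_apply K M₁ M₂, IsScalarTower.algebraMap_apply K K₁ M₁,
      ← IsScalarTower.algebraMap_apply K₁ M₁ M₂]
  have hV : Spl M₂ B.S ⊆ B.Vis := vis_sub (K₁ := M₁) B.S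
  have hdv := Pool.Agent.Helper14.RD.finrank_dvd_pred p K K₁ ε hs.prim hs.gen
  have hp1 : 1 < p := (Fact.out : p.Prime).one_lt
  have hd0 : 0 < finrank K K₁ := finrank_pos
  set κ : ℝ := ((p : ℝ) - 1) / finrank K K₁ with hκ
  have hκ1 : 1 ≤ κ := by
    rw [hκ, le_div_iff₀ (by exact_mod_cast hd0), one_mul]
    have h : finrank K K₁ ≤ p - 1 := Nat.le_of_dvd (by omega) hdv
    have h' : ((finrank K K₁ : ℕ) : ℝ) ≤ ((p - 1 : ℕ) : ℝ) := by exact_mod_cast h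
    rwa [Nat.cast_sub hp1.le, Nat.cast_one] at h'
  obtain ⟨g1, g2, g3, -⟩ := h_g κ hκ1
  have h2k : (1 : ℝ) ≤ 2 ^ (κ - 1) := Real.one_le_rpow (by norm_num) (by linarith)
  refine ⟨gK κ, 2 ^ (κ - 1), ⟨g1, fun Y X h ↦ ?_, fun X _ ↦ g3 X⟩, ?_⟩
  · calc gK κ Y ≤ gK κ X := g2 Y X h
      _ = 1 * gK κ X := (one_mul _).symm
      _ ≤ 2 ^ (κ - 1) * gK κ X :=
        mul_le_mul_of_nonneg_right h2k (by linarith [g1 X])
  intro n E aτ haτ hN
  obtain ⟨tr, htr⟩ := Pool.Agent.Helper12.PP.kap_tr p P hs.irr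
  obtain ⟨ψ₁, hψ₁⟩ := Pool.Agent.Helper12.PP.kap_ex p
  have hpsK : psK tr ψ₁ ≠ 1 := by
    intro h
    apply one_ne_zero (α := ZMod p)
    apply Pool.Agent.Helper12.PP.kap_psi p ψ₁ hψ₁
    obtain ⟨x, hx⟩ := Pool.Agent.Helper12.PP.kap_surj p P tr htr 1
    have h1 := DFunLike.congr_fun h x
    rw [← hx]
    exact h1
  obtain ⟨Ka, hKa⟩ := sv0B p K M K₁ M₁ M₂ ε δ P B E hdv D.s0 aτ
    ((Fintype.card (AdjoinRoot P) : ℝ) + 4)
  have hSVa := hKa Ka le_rfl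
  obtain ⟨X1, hC1, hV1⟩ := v_blu p K M K₁ M₁ ε δ P hs hnt B n E (Spl M₂ B.S) D.s0 aτ hV tr ψ₁
    htr hψ₁
  obtain ⟨lab2, X2, hC2, hV2⟩ := blu2 hTWO p K M K₁ M₁ ε δ P hs hnt2 B n E (Spl M₂ B.S) D.s0 aτ hV
    tr ψ₁ htr hψ₁
  obtain ⟨Kb, hKb1, hKb⟩ := Pool.Agent.Helper51.PP.bl1 p B.LP (HeightOneSpectrum (𝓞 K))
    (AdjoinRoot P) (Fin B.r → AdjoinRoot P) (Fin n → AdjoinRoot P) (Fin B.t → ZMod p)
    (sysB B E (Spl M₂ B.S) D.s0 aτ) (psK tr ψ₁) M₁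
    (a1_unb M₁) Ka (Fintype.card (ZMod p)ˣ) hSVa.che (fun b₀ ↦ fib_bound B b₀) (ZMod p)ˣ
    (fun q ↦ q.1.2) _ _ _ _ X1 hC1 hV1
  obtain ⟨Kc, hKc1, hKc⟩ := a2_bl3 p B.LP (HeightOneSpectrum (𝓞 K))
    (AdjoinRoot P) (Fin B.r → AdjoinRoot P) (Fin n → AdjoinRoot P) (Fin B.t → ZMod p)
    (sysB B E (Spl M₂ B.S) D.s0 aτ) (psK tr ψ₁) M₁
    (a1_unb M₁) Ka (Fintype.card (ZMod p)ˣ) hSVa.che (fun b₀ ↦ fib_bound B b₀)
    ((ZMod p)ˣ × (ZMod p)ˣ) lab2 _ _ _ _ X2 hC2 hV2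
  obtain ⟨Kd, hKd1, hKd⟩ := w2 p K M K₁ M₁ J M₂ ε δ P a₀ hB B D n E hN aτ tr ψ₁ htr hψ₁
  set K' : ℕ := max (max Ka Kb) (max Kc Kd) with hK'
  have hl : max (max Ka Kb) (max Kc Kd) ≤ K' := le_rfl
  have hKa' : Ka ≤ K' := ((le_max_left _ _).trans (le_max_left _ _)).trans hl
  have hKb' : Kb ≤ K' := ((le_max_right _ _).trans (le_max_left _ _)).trans hl
  have hKc' : Kc ≤ K' := ((le_max_left _ _).trans (le_max_right _ _)).trans hl
  have hKd' : Kd ≤ K' := ((le_max_right _ _).trans (le_max_right _ _)).trans hl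
  have hSV := hKa K' hKa'
  have hH₀ : Hyp₀ (sysB B E (Spl M₂ B.S) D.s0 aτ) (psK tr ψ₁) (gK κ) K' :=
      { one_le := hSV.one_le
        ψ_ne := hpsK
        che := hSV.che
        g_one := hSV.g_one
        g_mono := hSV.g_mono
        ht := hSV.ht
        mers := hSV.mers
        sm := by
          have h := hKd K' hKd'
          unfold Pool.Agent.Helper76.PP.SmF at h
          intro D y χ n hn hD hinj hne hx
          have h' := h D y χ n hn hD hinj hne hx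
          convert h' using 2
          ext q
          simp only [Finset.mem_filter]
        kum := w3 p K M K₁ M₁ J M₂ ε δ P a₀ hB hnt B D n E aτ
        bl₁ := by
          intro i j t y c α β Y hj ht hY hα hβ hD
          refine (hKb i j t y c α β Y hj ht hY hα hβ hD).trans ?_
          have hm := mono_bound Kb K' i j (min i j) (Real.exp (-((2 : ℝ) ^ (i + j) / (2 * Y))))
            ((i : ℝ) + 1) hKb1 hKb' (Real.exp_pos _).le (by linarith [Nat.cast_nonneg (α := ℝ) i])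
          rw [Nat.cast_min] at hm
          exact hm }
  refine ⟨psK tr ψ₁, K', ?_, ?_⟩
  · refine hyp₂_true _ _ _ (fun _ => trivial) _ _ hH₀ ?_
    intro i j t s c y α β Y hi hj hij ht hs' hcy hY hα hβ
    refine (hKc i j t s c y α β Y hi hj hij ht hs' hcy hY hα hβ).trans ?_
    have hi' : (1 : ℝ) ≤ i := by exact_mod_cast hi
    have hm := mono_bound Kc K' i j (min i j) (Real.exp (-((2 : ℝ) ^ (i + j) / (2 * Y))))
      ((i : ℝ) + j) hKc1 hKc' (Real.exp_pos _).le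
      (by linarith [Nat.cast_nonneg (α := ℝ) j])
    rw [Nat.cast_min] at hm
    exact hm
  · obtain ⟨b, hb1, hb2⟩ := fam_ex p K M K₁ M₁ ε δ P hs B
      (sysB B E (Spl M₂ B.S) D.s0 aτ).cl₀
    exact lowB p K M K₁ M₁ ε δ P B E (Spl M₂ B.S) D.s0 aτ ⟨b, hb1, hb2⟩


end Pool.Agent.Helper11.R
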