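import Pool.Agent.Helper11.PB.Gen
import Pool.Agent.Helper17.PP2.Asm

/-!
# Project R (MP_fc6b1e_nt, stage 3): from finite to infinite sums for `Hyp₂`
-/

set_option autoImplicit false

namespace Pool.Agent.Helper11.R

open NumberField Polynomial Module IsDedekindDomain
open Pool.Agent.Helper17.PP (Sys)
open Pool.Agent.Helper17.PP0 (Hyp₀)
open Pool.Agent.Helper17.PP2 (Hyp₂)
open Pool.Agent.Helper11.PB (Ana)
open Pool.Agent.Helper63.PP (sum_le bound)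

open Classical in
/-- From finite to infinite sums for `Hyp₂`: the constant is `(|U|/|Λ|)/(Q - 1)`. -/
theorem ana_of_hyp2 {p : ℕ} [Fact p.Prime] {B B₀ k U Λ C : Type} [Field k] [Fintype k]
    [Algebra (ZMod p) k] [AddCommGroup U] [Module k U] [Fintype U] [AddCommGroup Λ] [Module k Λ]
    [Fintype Λ] [AddCommGroup C] [Finite C] {S : Sys p B B₀ k U Λ C} {ψ : AddChar k ℂ}
    {G : B → Prop} {g : ℝ → ℝ} {K : ℕ} (hS : Hyp₂ S ψ G g K) {c X₁ : ℝ}
    (hc : ∀ X : ℝ, X₁ ≤ X → ∃ P : Finset B, c * (X * g X) ≤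
      ∑ b ∈ P.powerset with S.Fam b, Real.exp (-(S.nm b / X))) {θ : ℝ}
    (hθ : ((Fintype.card U : ℝ) / Fintype.card Λ) *
      (1 / (Fintype.card k - 1)) ≤ θ) : Ana S g θ K c X₁ := by
  obtain ⟨h1, h2, -⟩ := Pool.Agent.Helper11.PP0.sys0 p B B₀ k U Λ C S ψ g K hS.toHyp₀ c X₁ hc
  have hexp : ∀ (X : ℝ) (b : Finset B), 0 ≤ Real.exp (-(S.nm b : ℝ) / X) := fun X b ↦
    (Real.exp_pos _).le
  have hsum : ∀ X : ℝ, 0 < X → Summable fun b : {b : Finset B // S.Fam b} ↦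
      Real.exp (-(S.nm b.1 : ℝ) / X) := fun X hX ↦ (h1 X hX).1
  -- finite sums over the family are at most the infinite sum
  have hle : ∀ X : ℝ, 0 < X → ∀ P : Finset B,
      ∑ b ∈ P.powerset with S.Fam b, Real.exp (-(S.nm b : ℝ) / X) ≤
        ∑' b : {b : Finset B // S.Fam b}, Real.exp (-(S.nm b.1 : ℝ) / X) := by
    intro X hX P
    have h2 : ∑ b ∈ P.powerset with S.Fam b, Real.exp (-(S.nm b : ℝ) / X) =
        ∑ b ∈ (P.powerset.subtype S.Fam), Real.exp (-(S.nm b.1 : ℝ) / X) := by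
      rw [← Finset.sum_subtype_eq_sum_filter]
    rw [h2]
    exact (hsum X hX).sum_le_tsum _ fun b _ ↦ hexp X b.1
  refine ⟨h1, h2, ?_⟩
  intro η hη
  obtain ⟨X₀, h0⟩ := Pool.Agent.Helper17.PP2.mt₂ p B B₀ k U Λ C S ψ G g K hS η hη
  refine ⟨max X₀ 1, fun X hX ↦ ?_⟩
  have hX0 : X₀ ≤ X := (le_max_left _ _).trans hX
  have hXp : 0 < X := lt_of_lt_of_le one_pos ((le_max_right _ _).trans hX)
  have hk1 : (1 : ℝ) < Fintype.card k := by
    exact_mod_cast Fintype.one_lt_card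
  have hθ0 : 0 ≤ ((Fintype.card U : ℝ) / Fintype.card Λ) *
      ((1 : ℝ) / (Fintype.card k - 1)) :=
    mul_nonneg (by positivity) (div_nonneg zero_le_one (by linarith))
  refine Real.tsum_le_of_sum_le (fun b ↦ hexp X b.1.1) fun s ↦ ?_
  refine (sum_le (fun b : {b : {b : Finset B // S.Fam b} | S.Bad b.1} ↦ b.1.1)
    (Subtype.val_injective.comp Subtype.val_injective) (fun b ↦ S.Fam b ∧ S.Bad b)
    (fun b ↦ ⟨b.1.2, b.2⟩) (fun b ↦ Real.exp (-(S.nm b : ℝ) / X)) (hexp X) s).trans ?_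
  have h2 := h0 X hX0 (s.biUnion fun b ↦ b.1.1)
  have h3 := hle X hXp (s.biUnion fun b ↦ b.1.1)
  have e1 : ∀ b : Finset B, Real.exp (-((S.nm b : ℝ) / X)) = Real.exp (-(S.nm b : ℝ) / X) :=
    fun b ↦ by rw [neg_div]
  simp only [e1] at h2
  refine le_trans (le_of_eq ?_) (h2.trans ?_)
  · congr!
  have h5 : 0 ≤ ∑' b : {b : Finset B // S.Fam b}, Real.exp (-(S.nm b.1 : ℝ) / X) :=
    tsum_nonneg fun b ↦ hexp X b.1
  have h4 := mul_le_mul_of_nonneg_left h3 hθ0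
  have h6 := mul_le_mul_of_nonneg_right hθ h5
  linarith

end Pool.Agent.Helper11.R
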