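import Pool.Agent.Helper11.R.MOMR
import Pool.Agent.Helper11.PB.Asm
import Pool.Agent.Helper51.REC.Asm

/-!
# Project R (MP_fc6b1e_nt, stage 3): the moment theorem with all the conditions, without hypotheses
-/

set_option autoImplicit false

namespace Pool.Agent.Helper11.R

theorem a_momr : MOMR :=
  momr Pool.Agent.Helper51.REC.r_two Pool.Agent.Helper76.PB.a_smn Pool.Agent.Helper76.PB.a_kum
    Pool.Agent.Helper94.PB.v_exb Pool.Agent.Helper94.PB.v_ext Pool.Agent.Helper76.PB.a_aln'

end Pool.Agent.Helper11.R
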