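import Pool.Agent.Helper11.R.MOMRN
import Pool.Agent.Helper11.R.Asm
import Pool.Agent.Helper38.ND.Asm

/-!
# Project R (MP_fc6b1e_nt): the moment theorem with all the conditions, natural density, without hypotheses
-/

set_option autoImplicit false

namespace Pool.Agent.Helper11.R

theorem a_momrn : Pool.Agent.Helper77.PPB.MOMRN :=
  momrn Pool.Agent.Helper86.ND.n_momw Pool.Agent.Helper50.ND.n_abs Pool.Agent.Helper26.ND.n_anh
    Pool.Agent.Helper38.ND.n_ana Pool.Agent.Helper93.ND.n_bru Pool.Agent.Helper79.ND.n_brk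
    Pool.Agent.Helper38.ND.mt2w Pool.Agent.Helper51.REC.r_two Pool.Agent.Helper76.PB.a_smn
    Pool.Agent.Helper76.PB.a_kum Pool.Agent.Helper94.PB.v_exb Pool.Agent.Helper94.PB.v_ext
    Pool.Agent.Helper76.PB.a_aln'

end Pool.Agent.Helper11.R
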