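import Pool.Agent.Helper11.R.MOMRV
import Pool.Agent.Helper11.R.Asm
import Pool.Agent.Helper42.PW.Asm1
import Pool.Agent.Helper13.PW.WAPX
import Pool.Agent.Helper32.PW.WSHF

/-!
# Project R + W (MP_fc6b1e_nt): the moment theorems for all families, without hypotheses
-/

set_option autoImplicit false

namespace Pool.Agent.Helper11.R

open Pool.Agent.Helper42.PW

theorem a_apx : W_APX := Pool.Agent.Helper13.PW.w_apx n_trn a_grp

theorem a_momrv : MOMRV :=
  momrv Pool.Agent.Helper50.ND.n_abs Pool.Agent.Helper91.PW.w_cnd Pool.Agent.Helper87.PW.w_momv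
    a_selw Pool.Agent.Helper26.ND.n_anh Pool.Agent.Helper38.ND.n_ana
    Pool.Agent.Helper93.ND.n_bru Pool.Agent.Helper79.ND.n_brk Pool.Agent.Helper38.ND.mt2w
    Pool.Agent.Helper51.REC.r_two Pool.Agent.Helper76.PB.a_smn Pool.Agent.Helper76.PB.a_kum
    Pool.Agent.Helper53.PW.w_exb a_extw Pool.Agent.Helper76.PB.a_aln' a_apx
    Pool.Agent.Helper32.PW.w_shf

theorem a_mombv' : MOMBV := a_mombv a_apx Pool.Agent.Helper32.PW.w_shf

theorem a_momb1v' : MOMB1V := a_momb1v a_apx Pool.Agent.Helper32.PW.w_shf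

end Pool.Agent.Helper11.R
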