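import Pool.Agent.Helper16.REC.KBAS
import Pool.Agent.Helper33.REC.KBRK
import Pool.Agent.Helper51.REC.Goals3
import Pool.Agent.Helper76.PP.WUPV

/-!
# Project R (MP_fc6b1e_nt, stage 3): the symbols `kap` and the logarithms `th`
-/

set_option autoImplicit false

namespace Pool.Agent.Helper11.R

open NumberField Polynomial Module IsDedekindDomain
open Pool.Agent.Helper51.RP Pool.Agent.Helper42.RD Pool.Agent.Helper42.PP Pool.Agent.Helper42.PP1
open Pool.Agent.Helper76.PP Pool.Agent.Helper51.REC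

section kap

variable {p : ℕ} [hp : Fact p.Prime] {F : Type} [Field F] [NumberField F] {ε : F}

theorem ordv_inv' (W : HeightOneSpectrum (𝓞 F)) (x : Fˣ) :
    ordv W ((x⁻¹ : Fˣ) : F) = - ordv W (x : F) := by
  unfold ordv
  rw [Units.val_inv_eq_inv_val, map_inv₀, WithZero.log_inv]

theorem ordv_mul' (W : HeightOneSpectrum (𝓞 F)) (x y : Fˣ) :
    ordv W ((x * y : Fˣ) : F) = ordv W (x : F) + ordv W (y : F) := by
  unfold ordv
  rw [Units.val_mul, map_mul, WithZero.log_mul]
  · ring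
  · rw [Valuation.ne_zero_iff]; exact x.ne_zero
  · rw [Valuation.ne_zero_iff]; exact y.ne_zero

theorem ordv_one' (W : HeightOneSpectrum (𝓞 F)) : ordv W ((1 : Fˣ) : F) = 0 := by
  unfold ordv
  rw [Units.val_one, map_one, WithZero.log_one, neg_zero]

theorem ordv_pow' (W : HeightOneSpectrum (𝓞 F)) (x : Fˣ) (n : ℕ) :
    ordv W ((x ^ n : Fˣ) : F) = n * ordv W (x : F) := by
  induction n with
  | zero => rw [pow_zero, ordv_one', Nat.cast_zero, zero_mul]
  | succ n ih => rw [pow_succ, ordv_mul', ih]; push_cast; ring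

theorem ordv_prod' {ι : Type} (W : HeightOneSpectrum (𝓞 F)) (s : Finset ι) (x : ι → Fˣ) :
    ordv W ((∏ i ∈ s, x i : Fˣ) : F) = ∑ i ∈ s, ordv W (x i : F) := by
  classical
  induction s using Finset.induction_on with
  | empty => rw [Finset.prod_empty, Finset.sum_empty, ordv_one']
  | insert a s ha ih => rw [Finset.prod_insert ha, Finset.sum_insert ha, ordv_mul', ih]

variable (hε : IsPrimitiveRoot ε p) (W : HeightOneSpectrum (𝓞 F))
  (hW : W.valuation F (p : F) = 1)

include hε hW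

theorem kap_mul (x y : Fˣ) (hx : (p : ℤ) ∣ ordv W (x : F)) (hy : (p : ℤ) ∣ ordv W (y : F)) :
    kap p ε W (x * y) = kap p ε W x + kap p ε W y :=
  (Pool.Agent.Helper16.REC.k_bas p F ε hε W hW).2.2.2.1 x y hx hy

theorem kap_one : kap p ε W 1 = 0 := by
  have h := (Pool.Agent.Helper16.REC.k_bas p F ε hε W hW).2.2.2.2.1 1
  rwa [one_pow] at h

theorem kap_inv (x : Fˣ) (hx : (p : ℤ) ∣ ordv W (x : F)) :
    kap p ε W x⁻¹ = - kap p ε W x := by
  have h := kap_mul hε W hW x x⁻¹ hx (by rw [ordv_inv']; exact (dvd_neg).2 hx)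
  rw [mul_inv_cancel, kap_one hε W hW] at h
  exact (neg_eq_of_add_eq_zero_right h.symm).symm

theorem kap_pow (x : Fˣ) (hx : (p : ℤ) ∣ ordv W (x : F)) (n : ℕ) :
    kap p ε W (x ^ n) = n * kap p ε W x := by
  induction n with
  | zero => rw [pow_zero, kap_one hε W hW, Nat.cast_zero, zero_mul]
  | succ n ih =>
    rw [pow_succ, kap_mul hε W hW _ _ (by rw [ordv_pow']; exact hx.mul_left _) hx, ih]
    push_cast
    ring

theorem kap_prod {ι : Type} (s : Finset ι) (x : ι → Fˣ)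
    (hx : ∀ i ∈ s, (p : ℤ) ∣ ordv W (x i : F)) :
    kap p ε W (∏ i ∈ s, x i) = ∑ i ∈ s, kap p ε W (x i) := by
  classical
  induction s using Finset.induction_on with
  | empty => rw [Finset.prod_empty, Finset.sum_empty, kap_one hε W hW]
  | insert a s ha ih =>
    rw [Finset.prod_insert ha, Finset.sum_insert ha, kap_mul hε W hW _ _
      (hx a (Finset.mem_insert_self _ _)) (by
        rw [ordv_prod']
        exact Finset.dvd_sum fun i hi => hx i (Finset.mem_insert_of_mem hi)),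
      ih fun i hi => hx i (Finset.mem_insert_of_mem hi)]

theorem kap_locPow (x : Fˣ) (hx : (p : ℤ) ∣ ordv W (x : F)) :
    kap p ε W x = 0 ↔ LocPow p W (x : F) :=
  (Pool.Agent.Helper16.REC.k_bas p F ε hε W hW).2.2.2.2.2.1 x hx

/-- A homomorphism with the same kernel as the symbol is a multiple of it. -/
theorem exists_const (f : Fˣ → ZMod p) (hf : Hom f)
    (hk : ∀ x : Fˣ, (p : ℤ) ∣ ordv W (x : F) → (f x = 0 ↔ LocPow p W (x : F))) :
    ∃ c : ZMod p, c ≠ 0 ∧ ∀ x : Fˣ, (p : ℤ) ∣ ordv W (x : F) → f x = c * kap p ε W x := by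
  obtain ⟨x₁, hx₁, hk₁⟩ := (Pool.Agent.Helper16.REC.k_bas p F ε hε W hW).2.2.2.2.2.2 1
  have hx₁' : (p : ℤ) ∣ ordv W (x₁ : F) := by
    unfold ordv
    rw [hx₁, WithZero.log_one, neg_zero]
    exact dvd_zero _
  have hf1 : f 1 = 0 := by
    have h := hf 1 1
    rw [mul_one] at h
    exact left_eq_add.1 h
  have hfp : ∀ (x : Fˣ) (n : ℕ), f (x ^ n) = n * f x := by
    intro x n
    induction n with
    | zero => rw [pow_zero, hf1, Nat.cast_zero, zero_mul]
    | succ n ih => rw [pow_succ, hf, ih]; push_cast; ring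
  have hfi : ∀ x : Fˣ, f x⁻¹ = - f x := by
    intro x
    have h := hf x x⁻¹
    rw [mul_inv_cancel, hf1] at h
    exact (neg_eq_of_add_eq_zero_right h.symm).symm
  refine ⟨f x₁, ?_, fun x hx => ?_⟩
  · intro h
    have h1 := (kap_locPow hε W hW x₁ hx₁').2 ((hk x₁ hx₁').1 h)
    rw [hk₁] at h1
    exact one_ne_zero h1
  · set a : ℕ := (kap p ε W x).val with ha
    have hy : (p : ℤ) ∣ ordv W ((x * (x₁ ^ a)⁻¹ : Fˣ) : F) := by
      rw [ordv_mul', ordv_inv', ordv_pow']
      exact dvd_add hx (dvd_neg.2 (hx₁'.mul_left _))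
    have h1 : kap p ε W (x * (x₁ ^ a)⁻¹) = 0 := by
      rw [kap_mul hε W hW _ _ hx (by
          rw [ordv_inv', ordv_pow']; exact dvd_neg.2 (hx₁'.mul_left _)),
        kap_inv hε W hW _ (by rw [ordv_pow']; exact hx₁'.mul_left _),
        kap_pow hε W hW _ hx₁', hk₁, ha, ZMod.natCast_val, ZMod.cast_id', id, mul_one]
      ring
    have h2 := (hk _ hy).2 ((kap_locPow hε W hW _ hy).1 h1)
    rw [hf, hfi, hfp, ha, ZMod.natCast_val, ZMod.cast_id', id] at h2
    rw [mul_comm]
    linear_combination h2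

end kap

section eqv

variable {p : ℕ} [hp : Fact p.Prime] {K F : Type} [Field K] [Field F] [NumberField F] [Algebra K F]
  {ε : F}

/-- The symbol at the prime `W' = g⁻¹ W`. -/
theorem kap_act (hε : IsPrimitiveRoot ε p) (W W' : HeightOneSpectrum (𝓞 F))
    (hW : W.valuation F (p : F) = 1) (g : F ≃ₐ[K] F)
    (hg : ∀ y : F, W.valuation F (g y) = W'.valuation F y)
    (hN : Ideal.absNorm W.asIdeal = Ideal.absNorm W'.asIdeal) (n : ℕ) (hn : g ε = ε ^ n)
    (x : Fˣ) (hx : (p : ℤ) ∣ ordv W' (x : F)) :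
    kap p ε W (act g x) = n * kap p ε W' x := by
  have hW' : W'.valuation F (p : F) = 1 := by
    rw [← hg, map_natCast, hW]
  have hord : ∀ y : F, ordv W (g y) = ordv W' y := fun y => by unfold ordv; rw [hg]
  obtain ⟨-, -, h1, -⟩ := Pool.Agent.Helper16.REC.k_bas p F ε hε W hW
  obtain ⟨-, -, h1', -⟩ := Pool.Agent.Helper16.REC.k_bas p F ε hε W' hW'
  have hx' : (p : ℤ) ∣ ordv W ((act g x : Fˣ) : F) := by
    change (p : ℤ) ∣ ordv W (g (x : F))
    rw [hord]
    exact hx
  refine ((h1 _ hx' _).1 ?_).symm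
  obtain ⟨y, hy1, hy2⟩ := (h1' x hx _).2 rfl
  refine ⟨act g y, ?_, ?_⟩
  · change W.valuation F (g (x : F) * g (y : F) ^ p) = 1
    rw [← map_pow, ← map_mul, hg]
    exact hy1
  · change W.valuation F ((g (x : F) * g (y : F) ^ p) ^ ((Ideal.absNorm W.asIdeal - 1) / p) -
      ε ^ (((n : ZMod p) * kap p ε W' x).val)) < 1
    have e1 : ε ^ (((n : ZMod p) * kap p ε W' x).val) = g (ε ^ (kap p ε W' x).val) := by
      rw [map_pow, hn, ← pow_mul]
      have e2 : (n * (kap p ε W' x).val) % p = ((n : ZMod p) * kap p ε W' x).val := by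
        rw [ZMod.val_mul, ZMod.val_natCast, Nat.mod_mul_mod]
      rw [← e2]
      exact pow_mod_orderOf' hε _
    rw [e1, hN, ← map_pow, ← map_mul, ← map_pow, ← map_sub, hg]
    exact hy2
where
  pow_mod_orderOf' {ε : F} (hε : IsPrimitiveRoot ε p) (k : ℕ) : ε ^ (k % p) = ε ^ k := by
    rw [hε.eq_orderOf]
    exact pow_mod_orderOf ε k

end eqv

end Pool.Agent.Helper11.R
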