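import Pool.Agent.Helper11.R.HYP2
import Pool.Agent.Helper11.R.Ana2
import Pool.Agent.Helper11.PB.MOMB

/-!
# Project R (MP_fc6b1e_nt, stage 3): the moment theorem in class form with all the conditions
-/

set_option autoImplicit false

namespace Pool.Agent.Helper11.R

open NumberField Polynomial Module IsDedekindDomain
open Pool.Agent.Helper51.RP Pool.Agent.Helper42.RD Pool.Agent.Helper42.PP Pool.Agent.Helper42.PP1
open Pool.Agent.Helper51.SigLeo Pool.Agent.Helper11.LE Pool.Agent.Helper11.PP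
open Pool.Agent.Helper17.PP (Sys)
open Pool.Agent.Helper17.PP0 (Hyp₀)
open Pool.Agent.Helper17.PP2 (Hyp₂)
open Pool.Agent.Helper42.PB Pool.Agent.Helper76.PB
open Pool.Agent.Helper79.PP (nice_val)
open Pool.Agent.Helper64.PP (rank_le)
open Pool.Agent.Helper11.PB (momW MomC BdB tc_up)
open Pool.Agent.Helper51.REC (R_TWO)

theorem momr (hTWO : R_TWO) (w2 : V_SMN) (w3 : V_KUM) (hEXB : V_EXB) (hEXT : V_EXT)
    (hALN : V_ALN') : MOMR := by
  classical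
  intro p hpF L K M K₁ M₁ J M₂ _ _ _ _ _ _ _ _ _ _ _ _ _ _ _ _ _ _ _ _ _ _ _ _ ε δ P a₀ hs hnt
    m ζ Φ hPhi hfr htor T hTc hd
  have hp : p.Prime := hpF.out
  have hirr : Fact (Irreducible P) := ⟨hs.sit.irr⟩
  have hP0 : P ≠ 0 := hs.sit.irr.ne_zero
  have hfinA : Module.Finite (ZMod p) (AdjoinRoot P) := (AdjoinRoot.powerBasis hP0).finite
  have hfA : Finite (AdjoinRoot P) := Module.finite_of_finite (ZMod p)
  let instA : Fintype (AdjoinRoot P) := Fintype.ofFinite _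
  have hcard : Fintype.card (AdjoinRoot P) = p ^ P.natDegree := by
    rw [Module.card_eq_pow_finrank (K := ZMod p) (V := AdjoinRoot P), ZMod.card,
      (AdjoinRoot.powerBasis hP0).finrank, AdjoinRoot.powerBasis_dim]
  have hne : Nonempty (AlgebraicClosure ℚ →+* ℂ_[p]) :=
    Pool.Agent.Helper35.RD.nonempty_hom ℚ ℂ_[p]
  have hcK : IsTotallyComplex K₁ := tc_up K K₁
  have hcM : IsTotallyComplex M₁ := tc_up K M₁
  have := hs.sit.gM
  have := hs.sit.st1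
  have := hs.sit.st2
  have hord : orderOf δ = m := hs.sit.ord.trans hfr
  have hPX : AdjoinRoot.root P ≠ 1 := by
    intro h
    have h2 := hPhi.cop 1 one_pos hPhi.one_lt (one_dvd _)
    have h3 : P ∣ X ^ 1 - 1 := by
      rw [← AdjoinRoot.mk_eq_zero, pow_one, map_sub, AdjoinRoot.mk_X, map_one, h, sub_self]
    exact hs.sit.irr.not_isUnit (h2.isUnit_of_dvd' dvd_rfl h3)
  obtain ⟨B, ⟨D⟩⟩ := hEXB p K M K₁ M₁ J M₂ ε δ P a₀ hs
  obtain ⟨g, K₀, hslow, hH⟩ := hyp2 hTWO w2 w3 p K M K₁ M₁ J M₂ ε δ P a₀ hs hnt B D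
  obtain ⟨hSf, hst, hSp, -, -, -, -⟩ := Pool.Agent.Helper16.PP.p_upr p K M B.S
  obtain ⟨s₀, hs₀⟩ := Pool.Agent.Helper90.RP.Dual.dvd_ncard (K := K) m hfr
    {w ∈ up M B.S | FreeP K w} (hSf.subset fun w hw => hw.1)
    (fun w hw v hv => ⟨hst w hw.1 v hv, free_of_conj hv hw.2⟩)
    (fun w hw => hw.2)
  have hr : B.r ≤ T.ncard + s₀ :=
    rank_le Pool.Agent.Helper30.PP.p_fun hPhi hord hfr hd htor B hSf hst hs₀
  have lob : S_LOB := Pool.Agent.Helper32.RP.s_lob Pool.Agent.Helper90.RP.s_sub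
    Pool.Agent.Helper59.RP.s_bin (Pool.Agent.Helper39.RP.s_sig Pool.Agent.Helper95.RP.s_lat)
    Pool.Agent.Helper99.RP.s_prm
  have hp1 : (1 : ℝ) < p := by exact_mod_cast hp.one_lt
  have hQ1 : (1 : ℝ) < (p : ℝ) ^ P.natDegree := by
    have h := one_lt_pow₀ hp1 hs.sit.irr.natDegree_pos.ne'
    exact h
  have hθ : (0 : ℝ) ≤ 1 / ((p : ℝ) ^ P.natDegree - 1) := by
    have h2 : (0 : ℝ) ≤ (p : ℝ) ^ P.natDegree - 1 := by linarith
    positivity
  refine momW Pool.Agent.Helper42.PB.v_lab Pool.Agent.Helper42.PB.v_sel L hs.toSitB T B D g K₀ hslow _ hθ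
    (T.ncard + s₀) ?_
  intro aτ haτ hnice
  obtain ⟨E⟩ := hEXT p ℂ_[p] K M K₁ M₁ J M₂ ε δ P a₀ hs L T B D aτ haτ (fun Q hQ =>
    nice_val hnice Q ((Q.valuation_lt_one_iff_mem (K := K₁) (p : 𝓞 K₁)).1 (by simpa using hQ)))
    (T.ncard + s₀) (fun 𝔪₀ v hv =>
      lob p ℂ_[p] hne L K M m s₀ δ ζ Φ P hPhi hord hfr T hTc (up M B.S) 𝔪₀ v hv hs₀)
  obtain ⟨ψ, K', hHyp, c, X₁, hc, hlow⟩ := hH (T.ncard + s₀) E.toTauF aτ haτ
    (hALN p K M K₁ M₁ J M₂ ε δ P a₀ hs hPX B D _ E.toTauF)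
  refine ⟨E, K', c, X₁, hc, ana_of_hyp2 hHyp hlow ?_⟩
  have h3 : (Fintype.card (Fin B.r → AdjoinRoot P) : ℝ) = ((p : ℝ) ^ P.natDegree) ^ B.r := by
    rw [Fintype.card_fun, hcard, Fintype.card_fin]
    push_cast
    ring
  have h4 : (Fintype.card (Fin (T.ncard + s₀) → AdjoinRoot P) : ℝ) =
      ((p : ℝ) ^ P.natDegree) ^ (T.ncard + s₀) := by
    rw [Fintype.card_fun, hcard, Fintype.card_fin]
    push_cast
    ring
  rw [h3, h4, hcard, Nat.cast_pow]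
  have h5 : ((p : ℝ) ^ P.natDegree) ^ B.r / ((p : ℝ) ^ P.natDegree) ^ (T.ncard + s₀) ≤ 1 := by
    rw [div_le_one (by positivity)]
    exact pow_le_pow_right₀ hQ1.le hr
  calc _ ≤ 1 * (1 / ((p : ℝ) ^ P.natDegree - 1)) :=
        mul_le_mul_of_nonneg_right h5 hθ
    _ = _ := one_mul _

end Pool.Agent.Helper11.R
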