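import Pool.Agent.Helper11.R.GoalsV
import Pool.Agent.Helper11.R.MOMRN
import Pool.Agent.Helper42.PW.MBV

/-!
# Project R + W (MP_fc6b1e_nt): the moment theorem with all the conditions, for all families
-/

set_option autoImplicit false

namespace Pool.Agent.Helper11.R

open NumberField Polynomial Module IsDedekindDomain
open Pool.Agent.Helper51.RP Pool.Agent.Helper42.RD Pool.Agent.Helper42.PP Pool.Agent.Helper42.PP1
open Pool.Agent.Helper51.SigLeo Pool.Agent.Helper11.LE Pool.Agent.Helper11.PP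
open Pool.Agent.Helper17.PP (Sys)
open Pool.Agent.Helper17.PP0 (Hyp₀)
open Pool.Agent.Helper17.PP2 (Hyp₂)
open Pool.Agent.Helper42.PB Pool.Agent.Helper76.PB Pool.Agent.Helper42.PW
open Pool.Agent.Helper64.PP (rank_le)
open Pool.Agent.Helper11.PB (tc_up)
open Pool.Agent.Helper38.ND
open Pool.Agent.Helper51.REC (R_TWO)

/-- `MOMRV` for `SitB`. -/
theorem momrvB (hABS : N_ABS) (hCND : W_CND) (hMOM : W_MOMV) (hSEL : V_SELW) (hANH : N_ANH)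
    (hANA : N_ANA) (hBRU : N_BRU) (hBRK : N_BRK) (hMT : MT₂W) (hTWO : R_TWO) (w2 : V_SMN)
    (w3 : V_KUM) (hEXB : W_EXB)
    (hEXT : V_EXTW) (hALN : V_ALN')
    (p : ℕ) [hpF : Fact p.Prime] (L : IwasawaLog p ℂ_[p]) (K M K₁ M₁ J M₂ : Type) [Field K]
    [NumberField K] [IsTotallyComplex K] [Field M] [NumberField M] [Field K₁] [NumberField K₁]
    [Field M₁] [NumberField M₁] [Field J] [NumberField J] [Field M₂] [NumberField M₂] [Algebra K M]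
    [Algebra K K₁] [Algebra K M₁] [Algebra M M₁] [Algebra K₁ M₁] [Algebra K J] [Algebra K M₂]
    [Algebra M M₂] [Algebra K₁ M₂] [Algebra M₁ M₂] [Algebra J M₂] (ε : K₁) (δ : M ≃ₐ[K] M)
    (P : (ZMod p)[X]) (a₀ : M₂ˣ) (hs : SitBs p K M K₁ M₁ J M₂ ε δ P a₀) (hnt : NTV2 p M₁ ε δ P)
    (m : ℕ) (ζ : ℂ_[p]) (Φ : ℤ_[p][X]) (hPhi : PhiData p m ζ Φ P)
    (hfr : finrank K M = m) (htor : TorOK P δ) (T : Set (K →+* ℂ_[p])) (hTc : PlaceClosed T)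
    (hd : finrank ℚ K = 2 * T.ncard) :
    MomA p K ε (BdW L T P δ a₀) (1 / ((p : ℝ) ^ P.natDegree - 1)) := by
  classical
  have hp : p.Prime := hpF.out
  have hirr : Fact (Irreducible P) := ⟨hs.sit.irr⟩
  have hP0 : P ≠ 0 := hs.sit.irr.ne_zero
  have hfinA : Module.Finite (ZMod p) (AdjoinRoot P) := (AdjoinRoot.powerBasis hP0).finite
  have hfA : Finite (AdjoinRoot P) := Module.finite_of_finite (ZMod p)
  let instA : Fintype (AdjoinRoot P) := Fintype.ofFinite _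
  have hcard : Fintype.card (AdjoinRoot P) = p ^ P.natDegree := by
    rw [Module.card_eq_pow_finrank (K := ZMod p) (V := AdjoinRoot P), ZMod.card,
      (AdjoinRoot.powerBasis hP0).finrank, AdjoinRoot.powerBasis_dim]
  have hne : Nonempty (AlgebraicClosure ℚ →+* ℂ_[p]) :=
    Pool.Agent.Helper35.RD.nonempty_hom ℚ ℂ_[p]
  have hcK : IsTotallyComplex K₁ := tc_up K K₁
  have hcM : IsTotallyComplex M₁ := tc_up K M₁
  have := hs.sit.gM
  have := hs.sit.st1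
  have := hs.sit.st2
  have hord : orderOf δ = m := hs.sit.ord.trans hfr
  have hPX : AdjoinRoot.root P ≠ 1 := by
    intro h
    have h2 := hPhi.cop 1 one_pos hPhi.one_lt (one_dvd _)
    have h3 : P ∣ X ^ 1 - 1 := by
      rw [← AdjoinRoot.mk_eq_zero, pow_one, map_sub, AdjoinRoot.mk_X, map_one, h, sub_self]
    exact hs.sit.irr.not_isUnit (h2.isUnit_of_dvd' dvd_rfl h3)
  have lob : S_LOB := Pool.Agent.Helper32.RP.s_lob Pool.Agent.Helper90.RP.s_sub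
    Pool.Agent.Helper59.RP.s_bin (Pool.Agent.Helper39.RP.s_sig Pool.Agent.Helper95.RP.s_lat)
    Pool.Agent.Helper99.RP.s_prm
  have hp1 : (1 : ℝ) < p := by exact_mod_cast hp.one_lt
  have hQ1 : (1 : ℝ) < (p : ℝ) ^ P.natDegree := by
    have h := one_lt_pow₀ hp1 hs.sit.irr.natDegree_pos.ne'
    exact h
  have hθ : (0 : ℝ) ≤ 1 / ((p : ℝ) ^ P.natDegree - 1) := by
    have h2 : (0 : ℝ) ≤ (p : ℝ) ^ P.natDegree - 1 := by linarith
    positivity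
  refine momA hABS hCND hMOM hSEL L hs.toSitB T _ hθ ?_
  intro S₀
  obtain ⟨B, hSB, ⟨D⟩⟩ := hEXB p K M K₁ M₁ J M₂ ε δ P a₀ hs S₀
  obtain ⟨g, K₀, hslow, hH⟩ := hyp2 hTWO w2 w3 p K M K₁ M₁ J M₂ ε δ P a₀ hs hnt B D
  refine ⟨B, D, g, K₀, hSB, hslow, ?_⟩
  obtain ⟨hSf, hst, hSp, -, -, -, -⟩ := Pool.Agent.Helper16.PP.p_upr p K M B.S
  obtain ⟨s₀, hs₀⟩ := Pool.Agent.Helper90.RP.Dual.dvd_ncard (K := K) m hfr
    {w ∈ up M B.S | FreeP K w} (hSf.subset fun w hw => hw.1)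
    (fun w hw v hv => ⟨hst w hw.1 v hv, free_of_conj hv hw.2⟩)
    (fun w hw => hw.2)
  have hr : B.r ≤ T.ncard + s₀ :=
    rank_le Pool.Agent.Helper30.PP.p_fun hPhi hord hfr hd htor B hSf hst hs₀
  intro aτ haτ
  obtain ⟨E⟩ := hEXT p ℂ_[p] hne K M K₁ M₁ J M₂ ε δ P a₀ hs L T B aτ haτ
    (T.ncard + s₀) (fun 𝔪₀ v hv =>
      lob p ℂ_[p] hne L K M m s₀ δ ζ Φ P hPhi hord hfr T hTc (up M B.S) 𝔪₀ v hv hs₀)
  obtain ⟨ψ, K', hHyp, c, X₁, hc, hlow⟩ := hH (T.ncard + s₀) E.toTauF aτ haτ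
    (hALN p K M K₁ M₁ J M₂ ε δ P a₀ hs hPX B D _ E.toTauF)
  refine (fun h => ⟨_, E, hANH hANA hBRU hBRK p K M K₁ M₁ ε δ P B _ E.toTauF
    (Spl M₂ B.S) D.s0 aτ ψ g K' hHyp.toHyp₀ K₀ hslow c X₁ hc hlow
    (1 / ((p : ℝ) ^ P.natDegree - 1)) hθ (mt2w_le hMT hHyp h)⟩) ?_
  have h3 : (Fintype.card (Fin B.r → AdjoinRoot P) : ℝ) = ((p : ℝ) ^ P.natDegree) ^ B.r := by
    rw [Fintype.card_fun, hcard, Fintype.card_fin]
    push_cast
    ring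
  have h4 : (Fintype.card (Fin (T.ncard + s₀) → AdjoinRoot P) : ℝ) =
      ((p : ℝ) ^ P.natDegree) ^ (T.ncard + s₀) := by
    rw [Fintype.card_fun, hcard, Fintype.card_fin]
    push_cast
    ring
  rw [h3, h4, hcard, Nat.cast_pow]
  have h5 : ((p : ℝ) ^ P.natDegree) ^ B.r / ((p : ℝ) ^ P.natDegree) ^ (T.ncard + s₀) ≤ 1 := by
    rw [div_le_one (by positivity)]
    exact pow_le_pow_right₀ hQ1.le hr
  calc _ ≤ 1 * (1 / ((p : ℝ) ^ P.natDegree - 1)) :=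
        mul_le_mul_of_nonneg_right h5 hθ
    _ = _ := one_mul _

/-- **MOMRV**. -/
theorem momrv (hABS : N_ABS) (hCND : W_CND) (hMOM : W_MOMV) (hSEL : V_SELW) (hANH : N_ANH)
    (hANA : N_ANA) (hBRU : N_BRU) (hBRK : N_BRK) (hMT : MT₂W) (hTWO : R_TWO) (w2 : V_SMN)
    (w3 : V_KUM) (hEXB : W_EXB)
    (hEXT : V_EXTW) (hALN : V_ALN') (hAPX : W_APX) (hSHF : W_SHF) : MOMRV := by
  intro p hpF L K M K₁ M₁ J M₂ _ _ _ _ _ _ _ _ _ _ _ _ _ _ _ _ _ _ _ _ _ _ _ _ ε δ P a₀ hs hnt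
    m ζ Φ hPhi hfr htor T hTc hd
  have hp : p.Prime := hpF.out
  have hp1 : (1 : ℝ) < p := by exact_mod_cast hp.one_lt
  have hQ1 : (1 : ℝ) < (p : ℝ) ^ P.natDegree :=
    one_lt_pow₀ hp1 hs.sit.irr.natDegree_pos.ne'
  refine shiftX hAPX hSHF L T _ ?_ ?_ hs
  · have h2 : (0 : ℝ) ≤ (p : ℝ) ^ P.natDegree - 1 := by linarith
    positivity
  · intro a₁ ha₁
    exact momrvB hABS hCND hMOM hSEL hANH hANA hBRU hBRK hMT hTWO w2 w3 hEXB hEXT hALN p L K M K₁ M₁ J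
      M₂ ε δ P a₁ ha₁ hnt m ζ Φ hPhi hfr htor T hTc hd

end Pool.Agent.Helper11.R
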