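import Pool.Agent.Helper11.R.Kap
import Pool.Agent.Helper35.PP.BBLU
import Pool.Agent.Helper64.PP.PEXT

/-!
# Project R (MP_fc6b1e_nt, stage 3): the element attached to a visible prime
-/

set_option autoImplicit false
set_option linter.unusedSectionVars false

namespace Pool.Agent.Helper11.R

open NumberField Polynomial Module IsDedekindDomain
open Pool.Agent.Helper51.RP Pool.Agent.Helper42.RD Pool.Agent.Helper42.PP Pool.Agent.Helper42.PP1
open Pool.Agent.Helper76.PP Pool.Agent.Helper51.REC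
open Pool.Agent.Helper40.RS (bel gw bel_smul lies conj_of_bel free_gw absNorm_free val_smul)
open Pool.Agent.Helper13.RD (eq_gw ram_free eq_of_val)
open Pool.Agent.Helper40.RD (bel_of_above ordW)
open Pool.Agent.Helper22.PP (nsig_eq nsig_mul nsig_one nsig_ne nsig_inv exists_n)

section div

variable {K F : Type} [Field K] [NumberField K] [Field F] [NumberField F] [Algebra K F]
  [IsGalois K F]

theorem act_one' (x : Fˣ) : act (1 : F ≃ₐ[K] F) x = x := by
  ext
  rfl

theorem act_mul' (g h : F ≃ₐ[K] F) (x : Fˣ) : act g (act h x) = act (g * h) x := by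
  ext
  rfl

theorem up_iff (S : Finset (HeightOneSpectrum (𝓞 K))) (w : HeightOneSpectrum (𝓞 F)) :
    w ∈ up F S ↔ bel K w ∈ S := by
  constructor
  · rintro ⟨v, hv, hw⟩
    rw [bel_of_above hw]
    exact hv
  · intro h
    exact ⟨_, h, above_bel w⟩

variable {S : Finset (HeightOneSpectrum (𝓞 K))} {w₀ : HeightOneSpectrum (𝓞 F)} {X : Fˣ}
  (hX : ∀ w' ∉ up F S, (w' = w₀ → ordv w' (X : F) = 1) ∧ (w' ≠ w₀ → ordv w' (X : F) = 0))

include hX

theorem div_far (g : F ≃ₐ[K] F) (w : HeightOneSpectrum (𝓞 F)) (hw : w ∉ up F S)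
    (h : bel K w ≠ bel K w₀) : ordv w ((act g X : Fˣ) : F) = 0 := by
  obtain ⟨w', hw', hb⟩ := exists_pull (K := K) w g
  have h1 : ordv w ((act g X : Fˣ) : F) = ordv w' (X : F) := by
    change ordv w (g (X : F)) = _
    unfold ordv
    rw [hw']
  rw [h1]
  refine (hX w' ?_).2 ?_
  · rw [up_iff, hb, ← up_iff]
    exact hw
  · rintro rfl
    exact h hb.symm

open Classical in
theorem div_near (hw₀ : w₀ ∉ up F S) (hf : FreeP K w₀) (g : F ≃ₐ[K] F) :
    ordv w₀ ((act g X : Fˣ) : F) = if g = 1 then 1 else 0 := by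
  obtain ⟨w', hw', hb⟩ := exists_pull (K := K) w₀ g
  have h1 : ordv w₀ ((act g X : Fˣ) : F) = ordv w' (X : F) := by
    change ordv w₀ (g (X : F)) = _
    unfold ordv
    rw [hw']
  have h2 : w' ∉ up F S := by
    rw [up_iff, hb, ← up_iff]
    exact hw₀
  rw [h1]
  split_ifs with h
  · subst h
    refine (hX w' h2).1 ?_
    apply eq_of_val
    intro y
    rw [← hw']
    rfl
  · refine (hX w' h2).2 ?_
    rintro rfl
    exact h (hf g hw')

end div

section tower

variable {K E F : Type} [Field K] [NumberField K] [Field E] [NumberField E] [Field F]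
  [NumberField F] [Algebra K E] [Algebra K F] [Algebra E F] [IsScalarTower K E F] [IsGalois K E]
  [IsGalois K F] [IsGalois E F]

theorem free_tower {W : HeightOneSpectrum (𝓞 F)} (h : FreeP K W) : FreeP E W := by
  intro g hg
  have h1 := h (g.restrictScalars K) hg
  ext y
  exact congrArg (fun u : F ≃ₐ[K] F => u y) h1

theorem ord_inc {W : HeightOneSpectrum (𝓞 F)} (h : FreeP K W) (x : E) :
    ordv W (algebraMap E F x) = ordv (bel E W) x := by
  rw [ordW (M := E) W, ram_free W (free_tower (K := K) (E := E) h), Nat.cast_one, one_mul]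

variable {S : Finset (HeightOneSpectrum (𝓞 K))} {w₀ : HeightOneSpectrum (𝓞 E)} {X : Eˣ}
  (hX : ∀ w' ∉ up E S, (w' = w₀ → ordv w' (X : E) = 1) ∧ (w' ≠ w₀ → ordv w' (X : E) = 0))

include hX

theorem inc_far (τ : E ≃ₐ[K] E) (W : HeightOneSpectrum (𝓞 F)) (hW : W ∉ up F S)
    (h : bel K W ≠ bel K w₀) : ordv W ((inc E F (act τ X) : Fˣ) : F) = 0 := by
  change ordv W (algebraMap E F ((act τ X : Eˣ) : E)) = 0
  rw [ordW (M := E) W, div_far hX τ (bel E W) ?_ ?_, mul_zero]
  · rw [up_iff, bel_bel, ← up_iff]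
    exact hW
  · rw [bel_bel]
    exact h

open Classical in
theorem inc_near {W₀ : HeightOneSpectrum (𝓞 F)} (hW₀ : W₀ ∉ up F S) (hb : bel E W₀ = w₀)
    (hf : FreeP K W₀) (hf₀ : FreeP K w₀) (τ : E ≃ₐ[K] E) (g : F ≃ₐ[K] F)
    (W' : HeightOneSpectrum (𝓞 F)) (hg : ∀ y : F, W₀.valuation F (g y) = W'.valuation F y) :
    ordv W' ((inc E F (act τ X) : Fˣ) : F) =
      if τ = (AlgEquiv.restrictNormalHom E g)⁻¹ then 1 else 0 := by
  have h1 : ordv W' ((inc E F (act τ X) : Fˣ) : F) =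
      ordv W₀ (algebraMap E F ((act (AlgEquiv.restrictNormalHom E g * τ) X : Eˣ) : E)) := by
    rw [← act_mul']
    change ordv W' (algebraMap E F ((act τ X : Eˣ) : E)) =
      ordv W₀ (algebraMap E F (AlgEquiv.restrictNormalHom E g ((act τ X : Eˣ) : E)))
    rw [← restr_spec (E := E) g]
    unfold ordv
    rw [hg]
  rw [h1, ord_inc hf, hb, div_near hX ?_ hf₀]
  · by_cases h : τ = (AlgEquiv.restrictNormalHom E g)⁻¹
    · rw [if_pos h, if_pos (by rw [h, mul_inv_cancel])]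
    · rw [if_neg h, if_neg (fun h2 => h (eq_inv_of_mul_eq_one_right h2))]
  · rw [up_iff, ← hb, bel_bel, ← up_iff]
    exact hW₀

end tower

section theta

variable {p : ℕ} [hpF : Fact p.Prime] {K M K₁ M₁ : Type} [Field K] [NumberField K] [Field M]
    [NumberField M] [Field K₁] [NumberField K₁] [Field M₁] [NumberField M₁] [Algebra K M]
    [Algebra K K₁] [Algebra K M₁] [Algebra M M₁] [Algebra K₁ M₁] {ε : K₁} {δ : M ≃ₐ[K] M}
    {P : (ZMod p)[X]}

theorem val_above {F : Type} [Field F] [NumberField F] [Algebra K F] {v : HeightOneSpectrum (𝓞 K)}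
    {W : HeightOneSpectrum (𝓞 F)} (h : Above W v) (n : ℕ) (hv : v.valuation K (n : K) = 1) :
    W.valuation F (n : F) = 1 := by
  rw [← natCast_notMem_iff] at hv ⊢
  intro h1
  apply hv
  rw [← h]
  change algebraMap (𝓞 K) (𝓞 F) (n : 𝓞 K) ∈ W.asIdeal
  rw [map_natCast]
  exact h1

/-- The valuation of `p` at the visible primes. -/
theorem val_vis (B : Base p K M K₁ M₁ ε δ P) {v : HeightOneSpectrum (𝓞 K)} (hv : v ∈ B.Vis) :
    v.valuation K (p : K) = 1 :=
  Pool.Agent.Helper35.PP.val_p_eq_one p B.abp hv.1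

/-- The constants `th v = c_v kap`. -/
theorem exists_cth (hs : SitW p K M K₁ M₁ ε δ P) (B : Base p K M K₁ M₁ ε δ P) :
    ∃ c : HeightOneSpectrum (𝓞 K) → ZMod p, ∀ v ∈ B.Vis, c v ≠ 0 ∧
      ∀ x : M₁ˣ, (p : ℤ) ∣ ordv (B.W v) (x : M₁) →
        B.th v x = c v * kap p (algebraMap K₁ M₁ ε) (B.W v) x := by
  have hε : IsPrimitiveRoot (algebraMap K₁ M₁ ε) p :=
    hs.prim.map_of_injective (algebraMap K₁ M₁).injective
  have h : ∀ v : HeightOneSpectrum (𝓞 K), ∃ c : ZMod p, v ∈ B.Vis → c ≠ 0 ∧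
      ∀ x : M₁ˣ, (p : ℤ) ∣ ordv (B.W v) (x : M₁) →
        B.th v x = c * kap p (algebraMap K₁ M₁ ε) (B.W v) x := by
    intro v
    by_cases hv : v ∈ B.Vis
    · obtain ⟨-, -, h3⟩ := w_log p K M K₁ M₁ ε δ P hs B v hv
      obtain ⟨c, hc⟩ := exists_const hε (B.W v) (val_above (B.Wa v hv).1 p (val_vis B hv)) (B.th v)
        (B.thh v hv) h3
      exact ⟨c, fun _ => hc⟩
    · exact ⟨0, fun h => absurd h hv⟩
  choose c hc using h
  exact ⟨c, hc⟩

theorem hom_pow {F : Type} [Field F] {A : Type} [AddCommGroup A] {f : Fˣ → A} (hf : Hom f)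
    (x : Fˣ) (n : ℕ) : f (x ^ n) = n • f x := by
  have h := hom_prod hf (Finset.range n) (fun _ => x)
  rw [Finset.prod_const, Finset.card_range, Finset.sum_const, Finset.card_range] at h
  exact h

open Classical in
/-- The element `Θ` attached to the visible prime `q` and to `η' ∈ κ`, `ρ ∈ F_p`. -/
theorem exists_theta (hs : SitW p K M K₁ M₁ ε δ P) (B : Base p K M K₁ M₁ ε δ P)
    (hm0 : AdjoinRoot.root P ^ finrank K M = 1)
    (tr : AdjoinRoot P →ₗ[ZMod p] ZMod p) (c : (M ≃ₐ[K] M) → AdjoinRoot P)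
    (hc : ∀ i ≤ finrank K M, c (δ ^ i) = AdjoinRoot.root P ^ (finrank K M - i))
    {q : HeightOneSpectrum (𝓞 K)} (hq : q ∈ B.Vis) (η' : AdjoinRoot P) (ρ : ZMod p) :
    haveI := hs.st1
    haveI := hs.st2
    haveI := hs.gM
    haveI := hs.gK
    haveI := hs.gMK
    ∃ Θ : M₁ˣ,
      (∀ v ∈ B.Vis, B.th v Θ = tr (η' * B.A v q) + ρ * B.pi v q) ∧
      (∀ W ∉ up M₁ B.S, ¬ Above W q → ordv W (Θ : M₁) = 0) ∧
      ∀ (g : M₁ ≃ₐ[K] M₁) (W' : HeightOneSpectrum (𝓞 M₁)),
        (∀ y : M₁, (B.W q).valuation M₁ (g y) = W'.valuation M₁ y) →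
        ((ordv W' (Θ : M₁) : ℤ) : ZMod p) =
          tr (η' * c (AlgEquiv.restrictNormalHom M g)⁻¹) +
            ρ * nsig p ε (AlgEquiv.restrictNormalHom K₁ g) := by
  have := hs.st1
  have := hs.st2
  have := hs.gM
  have := hs.gK
  have := hs.gMK
  have hG1 : IsGalois M M₁ := IsGalois.tower_top_of_isGalois K M M₁
  have hG2 : IsGalois K₁ M₁ := IsGalois.tower_top_of_isGalois K K₁ M₁
  have hUPR := Pool.Agent.Helper16.PP.p_upr
  have hNOR := Pool.Agent.Helper32.PP.b_nor hUPR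
  obtain ⟨hF, -⟩ := Pool.Agent.Helper30.PP.p_fun p K M (finrank K M) δ P finrank_pos hs.copm
    (by rw [← hs.ord]; exact pow_orderOf_eq_one δ) hs.irr hs.dvdP
  obtain ⟨hWv, hWQ, hWw, hWf⟩ := B.Wa q hq
  obtain ⟨hv1, hv2, hv3⟩ := (hs.vis q (val_vis B hq)).1 (B.W q) hWv hWf
  have hwf : FreeP K (B.w q) := (hv2 (B.w q) hWw).1
  have hQf : FreeP K (B.Q q) := (hv3 (B.Q q) hWQ).1
  have hWS : B.W q ∉ up M₁ B.S := by
    rw [up_iff, bel_of_above hWv]
    exact hq.1
  have hqK : q ∈ Spl K₁ B.S := ⟨hq.1, B.Q q, (hv3 (B.Q q) hWQ).2.2, hQf⟩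
  obtain ⟨-, hst, -⟩ := hUPR p K M B.S
  -- the elements `X ∈ M`, `Y ∈ K₁`
  choose lf hlf using fun z : AdjoinRoot P => AdjoinRoot.mk_surjective (g := P) z
  set N : Mˣ := nrm M M₁ (B.z q) with hN
  set X : Mˣ := N * ∏ i, pol (lf (- B.rho i N)) δ (B.u i) with hXdef
  set Y : K₁ˣ := B.y q * ∏ i, B.uw i ^ (- B.rw i (B.y q)).val with hYdef
  have hXR : ∀ v ∈ B.Vis, B.R v X = B.A v q := by
    intro v hv
    obtain ⟨hR, hG⟩ := (w_nrm p K M K₁ M₁ ε δ P hs B).2.2 v hv
    rw [hXdef, hR.1, hom_prod hR.1]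
    unfold Base.A Base.til
    rw [sub_eq_add_neg, ← Finset.sum_neg_distrib]
    congr 1
    refine Finset.sum_congr rfl fun i _ => ?_
    rw [(hF _ hR).1, hlf]
    ring
  have hYG : ∀ v ∈ B.Vis, B.G v Y = B.pi v q := by
    intro v hv
    obtain ⟨hR, hG⟩ := (w_nrm p K M K₁ M₁ ε δ P hs B).2.2 v hv
    rw [hYdef, hG.1, hom_prod hG.1]
    unfold Base.pi Base.tilw
    rw [sub_eq_add_neg, ← Finset.sum_neg_distrib]
    congr 1
    refine Finset.sum_congr rfl fun i _ => ?_
    rw [hom_pow hG.1, nsmul_eq_mul, ZMod.natCast_val, ZMod.cast_id', id]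
    ring
  -- divisors
  have hXd : ∀ w' ∉ up M B.S, (w' = B.w q → ordv w' (X : M) = 1) ∧
      (w' ≠ B.w q → ordv w' (X : M) = 0) := by
    intro w' hw'
    have h1 : ordv w' (X : M) = ordv w' (N : M) := by
      rw [hXdef, ordv_mul', ordv_prod', Finset.sum_eq_zero, add_zero]
      intro i _
      have h2 := Pool.Agent.Helper64.PP.unit_pol hst δ (lf (- B.rho i N)) (B.uS i)
      have h3 : w'.valuation M ((pol (lf (- B.rho i N)) δ (B.u i) : Mˣ) : M) = 1 := h2 w' hw'
      unfold ordv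
      rw [h3, WithZero.log_one, neg_zero]
    rw [h1]
    exact (hNOR p K M M₁ B.S).2.2.2 q (B.W q) (B.w q) hq.1 hWv hWw hWf (B.z q) (B.zo q hq) w' hw'
  have hYd : ∀ w' ∉ up K₁ B.S, (w' = B.Q q → ordv w' (Y : K₁) = 1) ∧
      (w' ≠ B.Q q → ordv w' (Y : K₁) = 0) := by
    intro w' hw'
    have h1 : ordv w' (Y : K₁) = ordv w' (B.y q : K₁) := by
      rw [hYdef, ordv_mul', ordv_prod', Finset.sum_eq_zero, add_zero]
      intro i _
      rw [ordv_pow']
      have h3 : w'.valuation K₁ ((B.uw i : K₁ˣ) : K₁) = 1 := B.uwS i w' hw'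
      unfold ordv
      rw [h3, WithZero.log_one, neg_zero, mul_zero]
    rw [h1]
    exact B.yo q hqK w' hw'
  -- `Θ`
  refine ⟨(∏ τ : M ≃ₐ[K] M, inc M M₁ (act τ X) ^ (tr (η' * c τ)).val) *
    ∏ σ : K₁ ≃ₐ[K] K₁, inc K₁ M₁ (act σ Y) ^ (ρ * (nsig p ε σ)⁻¹).val, ?_, ?_, ?_⟩
  · intro v hv
    have hth := B.thh v hv
    rw [hth, hom_prod hth, hom_prod hth]
    congr 1
    · have h4 : B.R v X = ∑ τ : M ≃ₐ[K] M,
          algebraMap (ZMod p) (AdjoinRoot P) (B.th v (inc M M₁ (act τ X))) * c τ := by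
        rw [← sum_pow δ (finrank K M) hs.ord rfl]
        unfold Base.R kf
        refine Finset.sum_congr rfl fun i hi ↦ ?_
        rw [hc i (Finset.mem_range.1 hi).le]
      rw [← hXR v hv, h4, Finset.mul_sum, map_sum]
      refine Finset.sum_congr rfl fun τ _ => ?_
      have h5 : η' * (algebraMap (ZMod p) (AdjoinRoot P) (B.th v (inc M M₁ (act τ X))) * c τ) =
          (B.th v (inc M M₁ (act τ X))) • (η' * c τ) := by
        rw [Algebra.smul_def]; ring
      rw [h5, map_smul, hom_pow hth, nsmul_eq_mul, ZMod.natCast_val, ZMod.cast_id', id,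
        smul_eq_mul, mul_comm]
    · rw [← hYG v hv]
      unfold Base.G wf
      rw [Finset.mul_sum]
      refine Finset.sum_congr rfl fun σ _ => ?_
      rw [hom_pow hth, nsmul_eq_mul, ZMod.natCast_val, ZMod.cast_id', id, mul_assoc]
  · intro W hW hWq
    have hb : bel K W ≠ q := by
      intro h
      apply hWq
      rw [← h]
      exact above_bel W
    have hb1 : bel K (B.w q) = q := by
      rw [← bel_of_above hWw, bel_bel, bel_of_above hWv]
    have hb2 : bel K (B.Q q) = q := by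
      rw [← bel_of_above hWQ, bel_bel, bel_of_above hWv]
    rw [ordv_mul', ordv_prod', ordv_prod', Finset.sum_eq_zero, Finset.sum_eq_zero, add_zero]
    · intro σ _
      rw [ordv_pow', inc_far hYd σ W hW (by rw [hb2]; exact hb), mul_zero]
    · intro τ _
      rw [ordv_pow', inc_far hXd τ W hW (by rw [hb1]; exact hb), mul_zero]
  · intro g W' hg
    rw [ordv_mul', ordv_prod', ordv_prod', Int.cast_add, Int.cast_sum, Int.cast_sum]
    congr 1
    · rw [Finset.sum_eq_single (AlgEquiv.restrictNormalHom M g)⁻¹]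
      · rw [ordv_pow', inc_near hXd hWS (bel_of_above hWw) hWf hwf _ g W' hg, if_pos rfl]
        push_cast
        rw [ZMod.natCast_val, ZMod.cast_id', id, mul_one]
      · intro τ _ hτ
        rw [ordv_pow', inc_near hXd hWS (bel_of_above hWw) hWf hwf _ g W' hg, if_neg hτ,
          mul_zero, Int.cast_zero]
      · intro h
        exact absurd (Finset.mem_univ _) h
    · rw [Finset.sum_eq_single (AlgEquiv.restrictNormalHom K₁ g)⁻¹]
      · rw [ordv_pow', inc_near hYd hWS (bel_of_above hWQ) hWf hQf _ g W' hg, if_pos rfl]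
        push_cast
        rw [ZMod.natCast_val, ZMod.cast_id', id, nsig_inv hs.prim, inv_inv, mul_one]
      · intro σ _ hσ
        rw [ordv_pow', inc_near hYd hWS (bel_of_above hWQ) hWf hQf _ g W' hg, if_neg hσ,
          mul_zero, Int.cast_zero]
      · intro h
        exact absurd (Finset.mem_univ _) h

end theta

end Pool.Agent.Helper11.R
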